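import Pool.Agent.H33.HK.DUH

/-!
# MP_e94f6f_an, module APP: the solution with given initial value
-/

set_option autoImplicit false

open MeasureTheory Set Filter Topology
open scoped ContDiff Interval

namespace Pool.Agent.H33.HK.APP

open Pool.Agent.H96.HK Pool.Agent.H33.HK

theorem lip_cont {V : ℝ → ℝ} {L : ℝ} (hVL : ∀ s r, |V s - V r| ≤ L * |s - r|) :
    Continuous V ∧ 0 ≤ L := by
  have hL0 : 0 ≤ L := by
    have := hVL 1 0
    rw [sub_zero, abs_one, mul_one] at this
    exact (abs_nonneg _).trans this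
  have : LipschitzWith ⟨L, hL0⟩ V := by
    refine LipschitzWith.of_dist_le_mul fun x y => ?_
    rw [Real.dist_eq, Real.dist_eq]
    exact hVL x y
  exact ⟨this.continuous, hL0⟩

theorem cs_bdd {a : ℝ → ℝ} (ha : Continuous a) (hcs : HasCompactSupport a) :
    ∃ M, 0 ≤ M ∧ ∀ x, |a x| ≤ M := by
  obtain ⟨M, hM⟩ := ha.bounded_above_of_compact_support hcs
  exact ⟨M, (norm_nonneg _).trans (hM 0), hM⟩

theorem cs_rad {a : ℝ → ℝ} (hcs : HasCompactSupport a) : ∃ R, 0 ≤ R ∧ ∀ x, R < |x| → a x = 0 := by
  obtain ⟨R, hR⟩ := hcs.isCompact.isBounded.subset_closedBall (0 : ℝ)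
  refine ⟨max R 0, le_max_right _ _, fun x hx => ?_⟩
  by_contra hne
  have h1 := hR (subset_tsupport _ hne)
  rw [mem_closedBall_zero_iff, Real.norm_eq_abs] at h1
  have := le_max_left R 0
  linarith

theorem K_bd (h1 : T_GG1) {V : ℝ → ℝ} {B : ℝ} {K : ℝ → ℝ → ℝ → ℝ} (hK : Ker V B K) {a : ℝ → ℝ}
    {M : ℝ} (hM : ∀ x, |a x| ≤ M) {t : ℝ} (ht : 0 < t) (s : ℝ) :
    |∫ r, K t s r * a r| ≤ Real.exp (B * t) * M := by
  have hi : Integrable fun r => Real.exp (B * t) * gg t (s - r) * M :=
    (((gg_int' ht).comp_sub_left s).const_mul _).mul_const M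
  rw [← Real.norm_eq_abs]
  refine (norm_integral_le_of_norm_le hi ?_).trans (le_of_eq ?_)
  · refine Eventually.of_forall fun r => ?_
    rw [Real.norm_eq_abs, abs_mul]
    exact mul_le_mul (hK.bdd t ht s r) (hM r) (abs_nonneg _)
      (mul_nonneg (Real.exp_pos _).le (gg_pos ht _).le)
  · rw [integral_mul_const, integral_const_mul, integral_sub_left_eq_self (fun x => gg t x) volume s,
      (h1.int t ht).2, mul_one]

theorem GG_zero (g : ℝ → ℝ) (s : ℝ) : GG 0 g s = 0 := by
  unfold GG gg
  simp

theorem app_pos {K : ℝ → ℝ → ℝ → ℝ} {a : ℝ → ℝ} {t : ℝ} (ht : 0 < t) (s : ℝ) :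
    app K a t s = ∫ r, K t s r * a r := by
  unfold app
  rw [if_neg (not_le.2 ht)]

theorem appl (h1 : T_GG1) (hMLK : T_MLK) (hMC : T_MC) : T_APP := by
  intro V B L K hB hVB hVL hK a ha hcs
  obtain ⟨hVc, hL0⟩ := lip_cont hVL
  obtain ⟨M, hM0, hM⟩ := cs_bdd ha hcs
  obtain ⟨R0, hR00, hR0⟩ := cs_rad hcs
  obtain ⟨hmild, hduh⟩ := (hMLK V B K hVc hVB hK).2 a ha hcs
  have hbd := fun (t : ℝ) (ht : 0 < t) (s : ℝ) => K_bd h1 hK hM ht s
  have hB0 : 0 < B := by linarith
  -- the correction term
  have hcor : ∀ t > 0, ∀ s, |app K a t s - GG t a s| ≤ B * t * Real.exp (B * t) * M := by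
    intro t ht s
    rw [app_pos ht, hduh t ht s, sub_sub_cancel_left, abs_neg, ← Real.norm_eq_abs]
    refine (intervalIntegral.norm_integral_le_of_norm_le_const
      (C := B * (Real.exp (B * t) * M)) fun τ hτ => ?_).trans (le_of_eq ?_)
    · rw [uIoc_of_le ht.le] at hτ
      rw [Real.norm_eq_abs]
      have hcoef : ∀ x, |V x * ∫ r, K τ x r * a r| ≤ B * (Real.exp (B * t) * M) := by
        intro x
        rw [abs_mul]
        refine mul_le_mul (hVB x) ((hbd τ hτ.1 x).trans ?_) (abs_nonneg _) hB0.le
        refine mul_le_mul_of_nonneg_right (Real.exp_le_exp.2 ?_) hM0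
        exact mul_le_mul_of_nonneg_left hτ.2 hB0.le
      rcases hτ.2.eq_or_lt with h | h
      · rw [h, sub_self, GG_zero, abs_zero]; positivity
      · refine h1.bdd (t - τ) (by linarith) _ _ ?_ hcoef s
        have hc : Continuous fun x : ℝ => ∫ r, K τ x r * a r := by
          exact hmild.cont.comp_continuous (by fun_prop : Continuous fun x : ℝ => ((τ, x) : ℝ × ℝ))
            fun x => ⟨hτ.1, mem_univ _⟩
        exact (hVc.mul hc).measurable
    · rw [sub_zero, abs_of_pos ht]; ring
  refine ⟨?_, ?_, ?_⟩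
  · rintro ⟨t, s⟩ ⟨ht, -⟩
    rcases (show (0 : ℝ) ≤ t from ht).eq_or_lt with h | h
    · subst h
      -- time zero
      have hF := (h1.init a M ha hM) (0, s) ⟨self_mem_Ici, mem_univ _⟩
      set F : ℝ × ℝ → ℝ := fun z => if z.1 = 0 then a z.2 else GG z.1 a z.2 with hFd
      have hdiff : Tendsto (fun z : ℝ × ℝ => app K a z.1 z.2 - F z)
          (𝓝[Ici 0 ×ˢ univ] (0, s)) (𝓝 0) := by
        have hb : Tendsto (fun z : ℝ × ℝ => B * z.1 * Real.exp (B * z.1) * M)
            (𝓝[Ici 0 ×ˢ univ] (0, s)) (𝓝 0) := by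
          have hc : Continuous fun z : ℝ × ℝ => B * z.1 * Real.exp (B * z.1) * M := by fun_prop
          have := (hc.tendsto (0, s)).mono_left (nhdsWithin_le_nhds (s := Ici 0 ×ˢ univ))
          simpa using this
        refine squeeze_zero_norm' ?_ hb
        filter_upwards [self_mem_nhdsWithin] with z hz
        have hz0 : 0 ≤ z.1 := hz.1
        rw [Real.norm_eq_abs]
        rcases hz0.eq_or_lt with h2 | h2
        · simp only [hFd]
          rw [if_pos h2.symm, ← h2]
          unfold app
          simp
        · simp only [hFd]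
          rw [if_neg h2.ne']
          exact hcor z.1 h2 z.2
      have hsum := hdiff.add hF
      simp only [sub_add_cancel] at hsum
      refine hsum.congr' ?_ |>.trans ?_
      · exact Eventually.of_forall fun z => rfl
      · have e : (0 : ℝ) + F (0, s) = app K a 0 s := by
          simp only [hFd]
          unfold app
          simp
        rw [e]
    · have hc := (hmild.cont (t, s) ⟨h, mem_univ _⟩).continuousAt
        ((isOpen_Ioi.prod isOpen_univ).mem_nhds ⟨h, mem_univ _⟩)
      refine (hc.congr ?_).continuousWithinAt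
      have hev : ∀ᶠ z : ℝ × ℝ in 𝓝 (t, s), 0 < z.1 :=
        continuousAt_fst.eventually_mem (Ioi_mem_nhds (by simpa using h))
      filter_upwards [hev] with z hz
      exact (app_pos hz z.2).symm
  · intro T
    obtain ⟨C0, -, hMC'⟩ := hMC
    rcases le_or_gt T 0 with hT | hT
    · have he : Ioo 0 T = ∅ := Ioo_eq_empty (not_lt.2 hT)
      refine ⟨?_, ?_, ?_, ?_, ?_⟩ <;> simp [he]
    · have hb2 : ∀ t ∈ Ioo 0 T, ∀ s, |∫ r, K t s r * a r| ≤ Real.exp (B * T) * M := by
        intro t ht s
        refine (hbd t ht.1 s).trans ?_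
        refine mul_le_mul_of_nonneg_right (Real.exp_le_exp.2 ?_) hM0
        exact mul_le_mul_of_nonneg_left ht.2.le hB0.le
      obtain ⟨⟨c2, heat, c0, c1, cc2⟩, -⟩ := hMC' V B L hB hL0 hVB hVL 0 T _ _ hT hmild hb2
      have he : ∀ t, 0 < t → app K a t = fun s => ∫ r, K t s r * a r := by
        intro t ht
        funext s
        exact app_pos ht s
      refine ⟨?_, ?_, ?_, ?_, ?_⟩
      · intro t ht
        rw [he t ht.1]
        exact c2 t ht
      · intro t ht s
        rw [he t ht.1]
        refine (heat t ht s).congr_of_eventuallyEq ?_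
        filter_upwards [Ioi_mem_nhds ht.1] with r hr
        exact app_pos hr s
      · refine c0.congr fun z hz => ?_
        simp only
        rw [he z.1 hz.1.1]
      · refine c1.congr fun z hz => ?_
        simp only
        rw [he z.1 hz.1.1]
      · refine cc2.congr fun z hz => ?_
        simp only
        rw [he z.1 hz.1.1]
  · intro T hT ε hε
    -- choose the radius
    have hlim : Tendsto (fun D : ℝ => Real.exp (B * T) * (2 * Real.exp (-(D ^ 2 / (8 * T)))) * M)
        atTop (𝓝 (Real.exp (B * T) * (2 * 0) * M)) := by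
      refine Tendsto.mul_const M (Tendsto.const_mul _ (Tendsto.const_mul 2 ?_))
      refine Real.tendsto_exp_neg_atTop_nhds_zero.comp ?_
      exact (tendsto_pow_atTop (by norm_num)).atTop_div_const (by positivity)
    rw [mul_zero, mul_zero, zero_mul] at hlim
    obtain ⟨D0, hD0⟩ := eventually_atTop.1 ((hlim.eventually_lt_const hε).and (eventually_ge_atTop 0))
    obtain ⟨hD1, hD2⟩ := hD0 D0 le_rfl
    refine ⟨D0 + R0 + 1, fun t ht s hs => ?_⟩
    rcases ht.1.eq_or_lt with h | h
    · rw [← h]
      unfold app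
      rw [if_pos le_rfl, hR0 s (by linarith), abs_zero]
      exact hε.le
    · rw [app_pos h]
      have hi : Integrable fun r => Real.exp (B * t) * ({x : ℝ | D0 ≤ |x|}.indicator (gg t) (s - r)) * M := by
        refine (Integrable.const_mul ?_ _).mul_const M
        refine Integrable.comp_sub_left (f := {x : ℝ | D0 ≤ |x|}.indicator (gg t)) ?_ s
        exact (gg_int' h).indicator (isClosed_le continuous_const continuous_abs).measurableSet
      rw [← Real.norm_eq_abs]
      refine (norm_integral_le_of_norm_le hi ?_).trans ?_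
      · refine Eventually.of_forall fun r => ?_
        rw [Real.norm_eq_abs, abs_mul]
        have hg0 : 0 ≤ {x : ℝ | D0 ≤ |x|}.indicator (gg t) (s - r) :=
          indicator_nonneg (fun x _ => (gg_pos h x).le) _
        by_cases hr : R0 < |r|
        · rw [hR0 r hr, abs_zero, mul_zero]
          positivity
        · push Not at hr
          have hm : s - r ∈ {x : ℝ | D0 ≤ |x|} := by
            have := abs_sub_abs_le_abs_sub s r
            simp only [mem_ofPred_eq]
            linarith
          rw [indicator_of_mem hm]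
          exact mul_le_mul (hK.bdd t h s r) (hM r) (abs_nonneg _)
            (mul_nonneg (Real.exp_pos _).le (gg_pos h _).le)
      · rw [integral_mul_const, integral_const_mul,
          integral_sub_left_eq_self (fun x => {x : ℝ | D0 ≤ |x|}.indicator (gg t) x) volume s,
          integral_indicator (isClosed_le continuous_const continuous_abs).measurableSet]
        have htl := h1.tail t h D0 hD2
        have e1 : Real.exp (-(D0 ^ 2 / (8 * t))) ≤ Real.exp (-(D0 ^ 2 / (8 * T))) := by
          apply Real.exp_le_exp.2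
          rw [neg_le_neg_iff]
          apply div_le_div_of_nonneg_left (sq_nonneg _) (by positivity)
          linarith [ht.2]
        have e2 : Real.exp (B * t) ≤ Real.exp (B * T) :=
          Real.exp_le_exp.2 (mul_le_mul_of_nonneg_left ht.2 hB0.le)
        calc Real.exp (B * t) * (∫ x in {x | D0 ≤ |x|}, gg t x) * M ≤
            Real.exp (B * T) * (2 * Real.exp (-(D0 ^ 2 / (8 * T)))) * M := by
              refine mul_le_mul_of_nonneg_right ?_ hM0
              refine mul_le_mul e2 (htl.trans (by linarith)) ?_ (Real.exp_pos _).le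
              exact setIntegral_nonneg
                (isClosed_le continuous_const continuous_abs).measurableSet fun x _ => (gg_pos h x).le
          _ ≤ ε := hD1.le

end Pool.Agent.H33.HK.APP
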