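import Pool.Agent.H96.HK.Basic

/-!
# MP_e94f6f_an, module CM1: comparison on the line
-/

set_option autoImplicit false

open MeasureTheory Set Filter Topology
open scoped ContDiff

namespace Pool.Agent.H33.HK.CM1

open Pool.Agent.H96.HK

/-- second derivative test -/
theorem dd_le_zero {f : ℝ → ℝ} {x : ℝ} (hc : ContDiffAt ℝ 2 f x) (hm : IsLocalMax f x) :
    deriv (deriv f) x ≤ 0 := by
  by_contra hcon
  push Not at hcon
  have h1 : IsLocalMin f x := isLocalMin_of_deriv_deriv_pos hcon hm.deriv_eq_zero hc.continuousAt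
  have h2 : f =ᶠ[𝓝 x] fun _ => f x := by
    filter_upwards [h1, hm] with y h3 h4 using le_antisymm h4 h3
  have h3 : deriv f =ᶠ[𝓝 x] fun _ => 0 := by
    filter_upwards [h2.eventuallyEq_nhds] with y hy
    rw [hy.deriv_eq, deriv_const]
  rw [h3.deriv_eq, deriv_const] at hcon
  exact lt_irrefl _ hcon

/-- one sided maximum -/
theorem left_max {f : ℝ → ℝ} {f' t0 t1 : ℝ} (h01 : t0 < t1) (hf : HasDerivAt f f' t1)
    (hm : ∀ τ ∈ Ioo t0 t1, f τ ≤ f t1) : 0 ≤ f' := by
  have h1 := (hasDerivWithinAt_iff_tendsto_slope' (s := Iio t1) (by simp)).1 hf.hasDerivWithinAt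
  refine ge_of_tendsto h1 ?_
  filter_upwards [Ioo_mem_nhdsLT h01] with τ hτ
  rw [slope_def_field]
  apply div_nonneg_of_nonpos
  · linarith [hm τ hτ]
  · linarith [hτ.2]

theorem cm1 : T_CM1 := by
  intro V B t0 T v hV h0T hcont hdec h0 heq
  by_contra hcon
  push Not at hcon
  obtain ⟨ts, hts, ss, hpos⟩ := hcon
  set c : ℝ := |B| + 1 with hc
  have hc0 : 0 < c := by positivity
  set w : ℝ × ℝ → ℝ := fun z => Real.exp (-c * (z.1 - t0)) * v z.1 z.2 with hw
  have hE : ∀ t ∈ Icc t0 T, 0 < Real.exp (-c * (t - t0)) ∧ Real.exp (-c * (t - t0)) ≤ 1 := by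
    intro t ht
    refine ⟨Real.exp_pos _, Real.exp_le_one_iff.2 ?_⟩
    nlinarith [ht.1]
  have hws : 0 < w (ts, ss) := mul_pos (hE ts hts).1 hpos
  obtain ⟨R, hR⟩ := hdec (w (ts, ss) / 2) (by positivity)
  have hout : ∀ t ∈ Icc t0 T, ∀ s, R ≤ |s| → w (t, s) ≤ w (ts, ss) / 2 := by
    intro t ht s hs
    obtain ⟨e1, e2⟩ := hE t ht
    have h1 := hR t ht s hs
    simp only [hw]
    rcases le_total (v t s) 0 with h2 | h2
    · have : Real.exp (-c * (t - t0)) * v t s ≤ 0 := mul_nonpos_of_nonneg_of_nonpos e1.le h2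
      have h3 : 0 < Real.exp (-c * (ts - t0)) * v ts ss := hws
      linarith
    · calc Real.exp (-c * (t - t0)) * v t s ≤ 1 * v t s := mul_le_mul_of_nonneg_right e2 h2
        _ ≤ _ := by rw [one_mul]; exact h1
  have hssR : |ss| ≤ R := by
    by_contra h
    push Not at h
    have := hout ts hts ss h.le
    linarith
  have hK : IsCompact (Icc t0 T ×ˢ Icc (-R) R) := isCompact_Icc.prod isCompact_Icc
  have hwc : ContinuousOn w (Icc t0 T ×ˢ univ) := by
    refine ContinuousOn.mul ?_ hcont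
    exact (Real.continuous_exp.comp (by fun_prop)).continuousOn
  obtain ⟨⟨t1, s1⟩, ⟨ht1, hs1⟩, hmax⟩ := hK.exists_isMaxOn
    ⟨(ts, ss), hts, abs_le.1 hssR⟩ (hwc.mono (prod_mono_right (subset_univ _)))
  simp only at ht1 hs1
  have hge : w (ts, ss) ≤ w (t1, s1) := hmax ⟨hts, abs_le.1 hssR⟩
  have hall : ∀ t ∈ Icc t0 T, ∀ s, w (t, s) ≤ w (t1, s1) := by
    intro t ht s
    by_cases hs : |s| ≤ R
    · exact hmax ⟨ht, abs_le.1 hs⟩
    · push Not at hs
      have := hout t ht s hs.le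
      linarith
  have hw1 : 0 < w (t1, s1) := hws.trans_le hge
  have hv1 : 0 < v t1 s1 := by
    have : 0 < Real.exp (-c * (t1 - t0)) * v t1 s1 := hw1
    exact pos_of_mul_pos_right this (hE t1 ht1).1.le
  have ht01 : t0 < t1 := by
    rcases ht1.1.eq_or_lt with h | h
    · have := h0 s1
      rw [h] at this
      linarith
    · exact h
  obtain ⟨hC, D, hD, hDle⟩ := heq t1 ⟨ht01, ht1.2⟩ s1 hv1
  -- time derivative
  have hder : HasDerivAt (fun τ => Real.exp (-c * (τ - t0)) * v τ s1)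
      (-c * Real.exp (-c * (t1 - t0)) * v t1 s1 + Real.exp (-c * (t1 - t0)) * D) t1 := by
    have h1 : HasDerivAt (fun τ => Real.exp (-c * (τ - t0))) (-c * Real.exp (-c * (t1 - t0))) t1 := by
      have h2 : HasDerivAt (fun τ : ℝ => -c * (τ - t0)) (-c) t1 := by
        simpa using ((hasDerivAt_id t1).sub_const t0).const_mul (-c)
      have := h2.exp
      rwa [mul_comm] at this
    exact h1.mul hD
  have hge0 := left_max ht01 hder (fun τ hτ => hall τ ⟨hτ.1.le, hτ.2.le.trans ht1.2⟩ s1)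
  have hDc : c * v t1 s1 ≤ D := by
    have h3 : 0 ≤ Real.exp (-c * (t1 - t0)) * (D - c * v t1 s1) := by
      calc (0 : ℝ) ≤ _ := hge0
        _ = _ := by ring
    have := nonneg_of_mul_nonneg_right h3 (hE t1 ht1).1
    linarith
  -- space
  have hmx : IsLocalMax (v t1) s1 := by
    refine Filter.Eventually.of_forall fun s => ?_
    have h4 := hall t1 ht1 s
    exact le_of_mul_le_mul_left h4 (hE t1 ht1).1
  have h5 := dd_le_zero hC hmx
  have h6 : -V s1 * v t1 s1 ≤ |B| * v t1 s1 := by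
    apply mul_le_mul_of_nonneg_right _ hv1.le
    have := hV s1
    have := le_abs_self B
    linarith
  have h7 : c * v t1 s1 = |B| * v t1 s1 + v t1 s1 := by rw [hc]; ring
  linarith

end Pool.Agent.H33.HK.CM1
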