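import Pool.Agent.H33.HK.GG2

/-!
# MP_e94f6f_an, module DUH: Duhamel integrals are classical
-/

set_option autoImplicit false

open MeasureTheory Set Filter Topology
open scoped ContDiff Interval

namespace Pool.Agent.H33.HK

open Pool.Agent.H96.HK

/-- the heat semigroup including time `0` -/
noncomputable def GH (σ : ℝ) (g : ℝ → ℝ) (s : ℝ) : ℝ := ∫ x, gg 1 x * g (s - √σ * x)

theorem GH_pos {σ : ℝ} (hσ : 0 < σ) (g : ℝ → ℝ) (s : ℝ) : GH σ g s = GG σ g s := by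
  unfold GH GG
  have hs : 0 < √σ := by positivity
  rw [← integral_sub_left_eq_self (fun r => gg σ (s - r) * g r) volume s]
  have h1 := Measure.integral_comp_mul_left (fun y => gg σ (s - (s - y)) * g (s - y)) (√σ)
  have h2 : ∀ x : ℝ, gg 1 x * g (s - √σ * x) = √σ * (gg σ (s - (s - √σ * x)) * g (s - √σ * x)) := by
    intro x
    rw [← mul_assoc]
    congr 1
    unfold gg
    have e1 : s - (s - √σ * x) = √σ * x := by ring
    have e0 : √(4 * Real.pi * σ) = √(4 * Real.pi) * √σ := Real.sqrt_mul (by positivity) _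
    rw [e1, mul_pow, Real.sq_sqrt hσ.le, mul_one, e0]
    have e2 : σ * x ^ 2 / (4 * σ) = x ^ 2 / 4 := by field_simp
    have e3 : x ^ 2 / (4 * 1) = x ^ 2 / 4 := by ring
    rw [e2, e3, mul_inv, ← mul_assoc]
    congr 1
    field_simp
  simp only [h2]
  rw [integral_const_mul, h1, abs_of_pos (inv_pos.2 hs), smul_eq_mul, ← mul_assoc,
    mul_inv_cancel₀ hs.ne', one_mul]

theorem GH_zero (h1 : T_GG1) (g : ℝ → ℝ) (s : ℝ) : GH 0 g s = g s := by
  unfold GH
  simp only [Real.sqrt_zero, zero_mul, sub_zero]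
  rw [integral_mul_const, (h1.int 1 one_pos).2, one_mul]

variable {g : ℝ → ℝ → ℝ} {M L : ℝ}

theorem GH_cont (hgc : Continuous fun z : ℝ × ℝ => g z.1 z.2) (hM : ∀ τ x, |g τ x| ≤ M) :
    Continuous fun z : ℝ × ℝ × ℝ => GH z.1 (g z.2.1) z.2.2 := by
  have hc : ∀ ξ : ℝ, Continuous fun z : ℝ × ℝ × ℝ => g z.2.1 (z.2.2 - √z.1 * ξ) := by
    intro ξ
    exact hgc.comp (by fun_prop : Continuous fun z : ℝ × ℝ × ℝ => (z.2.1, z.2.2 - √z.1 * ξ))
  have hm : ∀ z : ℝ × ℝ × ℝ, Continuous fun ξ : ℝ => g z.2.1 (z.2.2 - √z.1 * ξ) := by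
    intro z
    exact hgc.comp (by fun_prop : Continuous fun ξ : ℝ => (z.2.1, z.2.2 - √z.1 * ξ))
  have hg1 : Continuous (gg 1) := by rw [← kk0]; exact kk_cont1 0 one_pos
  unfold GH
  refine continuous_of_dominated (bound := fun ξ => gg 1 ξ * M) ?_ ?_
    ((gg_int' one_pos).mul_const M) ?_
  · intro z
    exact (hg1.mul (hm z)).aestronglyMeasurable
  · intro z
    refine Eventually.of_forall fun ξ => ?_
    rw [norm_mul, Real.norm_eq_abs, Real.norm_eq_abs, abs_of_pos (gg_pos one_pos ξ)]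
    exact mul_le_mul_of_nonneg_left (hM _ _) (gg_pos one_pos ξ).le
  · exact Eventually.of_forall fun ξ => continuous_const.mul (hc ξ)

theorem GH_bd (h1 : T_GG1) {g : ℝ → ℝ} (hM : ∀ x, |g x| ≤ M) (σ s : ℝ) : |GH σ g s| ≤ M := by
  unfold GH
  rw [← Real.norm_eq_abs]
  refine (norm_integral_le_of_norm_le ((gg_int' one_pos).mul_const M) ?_).trans ?_
  · refine Eventually.of_forall fun ξ => ?_
    rw [norm_mul, Real.norm_eq_abs, Real.norm_eq_abs, abs_of_pos (gg_pos one_pos ξ)]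
    exact mul_le_mul_of_nonneg_left (hM _) (gg_pos one_pos ξ).le
  · rw [integral_mul_const, (h1.int 1 one_pos).2, one_mul]

/-! ### a general lemma on weakly singular integrals -/

theorem sqrt_int0 (K : ℝ) {t : ℝ} (ht : 0 ≤ t) : IntervalIntegrable (fun σ => K / √σ) volume 0 t ∧
    ∫ σ in (0 : ℝ)..t, K / √σ = 2 * K * √t := by
  have h0 : ∀ x : ℝ, 0 < x → K / √x = K * x ^ (-(1 / 2) : ℝ) := by
    intro x hx
    rw [Real.rpow_neg hx.le, ← Real.sqrt_eq_rpow]; rfl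
  have h2 : IntervalIntegrable (fun σ : ℝ => σ ^ (-(1 / 2) : ℝ)) volume 0 t :=
    intervalIntegral.intervalIntegrable_rpow' (by norm_num)
  have h3 : ∀ x ∈ Ι (0 : ℝ) t, K * x ^ (-(1 / 2) : ℝ) = K / √x := by
    intro x hx
    rw [uIoc_of_le ht] at hx
    exact (h0 x hx.1).symm
  refine ⟨(h2.const_mul K).congr h3, ?_⟩
  have h4 : ∫ σ in (0 : ℝ)..t, K / √σ = ∫ σ in (0 : ℝ)..t, K * σ ^ (-(1 / 2) : ℝ) := by
    refine intervalIntegral.integral_congr_ae (Eventually.of_forall fun x hx => (h3 x hx).symm)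
  rw [h4, intervalIntegral.integral_const_mul, integral_rpow (Or.inl (by norm_num))]
  rw [Real.zero_rpow (by norm_num), show (-(1 / 2) + 1 : ℝ) = 1 / 2 by norm_num,
    ← Real.sqrt_eq_rpow]
  ring

theorem sqrt_int (K : ℝ) {t : ℝ} (ht : 0 ≤ t) :
    IntervalIntegrable (fun τ => K / √(t - τ)) volume 0 t ∧
    ∫ τ in (0 : ℝ)..t, K / √(t - τ) = 2 * K * √t := by
  obtain ⟨h1, h2⟩ := sqrt_int0 K ht
  constructor
  · have := h1.comp_sub_left t
    rw [sub_zero, sub_self] at this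
    exact this.symm
  · rw [intervalIntegral.integral_comp_sub_left (fun x => K / √x) t, sub_self, sub_zero, h2]

variable {f : ℝ → ℝ → ℝ → ℝ} {K : ℝ}

/-- integrability of weakly singular kernels -/
theorem weak_int (hfc : ∀ σ > 0, ∀ τ s, ContinuousAt (fun z : ℝ × ℝ × ℝ => f z.1 z.2.1 z.2.2) (σ, τ, s))
    (hfb : ∀ σ > 0, ∀ τ s, |f σ τ s| ≤ K / √σ) {t : ℝ} (ht : 0 ≤ t) (s : ℝ) :
    IntervalIntegrable (fun τ => f (t - τ) τ s) volume 0 t ∧
    |∫ τ in (0 : ℝ)..t, f (t - τ) τ s| ≤ 2 * K * √t := by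
  obtain ⟨h1, h2⟩ := sqrt_int K ht
  have hco : ContinuousOn (fun τ => f (t - τ) τ s) (Ioo 0 t) := by
    intro τ hτ
    have := hfc (t - τ) (by linarith [hτ.2]) τ s
    exact (ContinuousAt.comp (f := fun τ : ℝ => ((t - τ, τ, s) : ℝ × ℝ × ℝ))
      (g := fun z : ℝ × ℝ × ℝ => f z.1 z.2.1 z.2.2) this (by fun_prop)).continuousWithinAt
  have hm : AEStronglyMeasurable (fun τ => f (t - τ) τ s) (volume.restrict (Ι 0 t)) := by
    rw [uIoc_of_le ht, ← restrict_Ioo_eq_restrict_Ioc]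
    exact hco.aestronglyMeasurable measurableSet_Ioo
  have hb : ∀ᵐ τ ∂(volume.restrict (Ι 0 t)), ‖f (t - τ) τ s‖ ≤ K / √(t - τ) := by
    rw [uIoc_of_le ht, ← restrict_Ioo_eq_restrict_Ioc]
    filter_upwards [ae_restrict_mem measurableSet_Ioo] with τ hτ
    rw [Real.norm_eq_abs]
    exact hfb _ (by linarith [hτ.2]) τ s
  have hi : IntervalIntegrable (fun τ => f (t - τ) τ s) volume 0 t := h1.mono_fun' hm hb
  refine ⟨hi, ?_⟩
  rw [← h2, ← Real.norm_eq_abs]
  refine intervalIntegral.norm_integral_le_of_norm_le ht ?_ h1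
  rw [← ae_restrict_iff' measurableSet_Ioc, ← restrict_Ioo_eq_restrict_Ioc]
  filter_upwards [ae_restrict_mem measurableSet_Ioo] with τ hτ
  rw [Real.norm_eq_abs]
  exact hfb _ (by linarith [hτ.2]) τ s

/-- continuity of weakly singular integrals -/
theorem weak_cont (hfc : ∀ σ > 0, ∀ τ s, ContinuousAt (fun z : ℝ × ℝ × ℝ => f z.1 z.2.1 z.2.2) (σ, τ, s))
    (hfb : ∀ σ > 0, ∀ τ s, |f σ τ s| ≤ K / √σ) {t : ℝ} (ht : 0 < t) (s : ℝ) :
    ContinuousAt (fun z : ℝ × ℝ => ∫ τ in (0 : ℝ)..z.1, f (z.1 - τ) τ z.2) (t, s) := by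
  have hK : 0 ≤ K := by
    have := (abs_nonneg _).trans (hfb 1 one_pos 0 0)
    rwa [Real.sqrt_one, div_one] at this
  have hev : (fun z : ℝ × ℝ => ∫ u in Ioc (0 : ℝ) 1, z.1 * f (z.1 - (z.1 - z.1 * u)) (z.1 - z.1 * u) z.2)
      =ᶠ[𝓝 (t, s)] fun z : ℝ × ℝ => ∫ τ in (0 : ℝ)..z.1, f (z.1 - τ) τ z.2 := by
    have : ∀ᶠ z : ℝ × ℝ in 𝓝 (t, s), 0 < z.1 :=
      continuousAt_fst.eventually_mem (Ioi_mem_nhds (by simpa using ht))
    filter_upwards [this] with z hz
    have h1 := intervalIntegral.integral_comp_sub_mul (a := 0) (b := 1)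
      (fun τ => f (z.1 - τ) τ z.2) hz.ne' z.1
    rw [mul_one, mul_zero, sub_self, sub_zero] at h1
    rw [← intervalIntegral.integral_of_le zero_le_one, intervalIntegral.integral_const_mul, h1,
      smul_eq_mul, ← mul_assoc, mul_inv_cancel₀ hz.ne', one_mul]
  refine ContinuousAt.congr ?_ hev
  have hev2 : ∀ᶠ z : ℝ × ℝ in 𝓝 (t, s), z.1 ∈ Ioo (t / 2) (2 * t) :=
    continuousAt_fst.eventually_mem (Ioo_mem_nhds (by simp only; linarith) (by simp only; linarith))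
  have hcz : ∀ z : ℝ × ℝ, 0 < z.1 → ∀ u ∈ Ioc (0 : ℝ) 1, ContinuousAt
      (fun p : (ℝ × ℝ) × ℝ => p.1.1 * f (p.1.1 - (p.1.1 - p.1.1 * p.2)) (p.1.1 - p.1.1 * p.2) p.1.2)
      (z, u) := by
    intro z hz u hu
    refine ContinuousAt.mul (by fun_prop) ?_
    have h3 : 0 < z.1 - (z.1 - z.1 * u) := by
      have := mul_pos hz hu.1
      linarith
    exact ContinuousAt.comp (f := fun p : (ℝ × ℝ) × ℝ => ((p.1.1 - (p.1.1 - p.1.1 * p.2),
      p.1.1 - p.1.1 * p.2, p.1.2) : ℝ × ℝ × ℝ)) (g := fun z : ℝ × ℝ × ℝ => f z.1 z.2.1 z.2.2)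
      (hfc _ h3 _ _) (by fun_prop)
  have hbi : Integrable (fun u : ℝ => 2 * t * (K / √(t / 2)) / √u) (volume.restrict (Ioc (0 : ℝ) 1)) := by
    have := (sqrt_int0 (2 * t * (K / √(t / 2))) zero_le_one).1
    rwa [intervalIntegrable_iff_integrableOn_Ioc_of_le zero_le_one] at this
  refine continuousAt_of_dominated (bound := fun u : ℝ => 2 * t * (K / √(t / 2)) / √u) ?_ ?_ hbi ?_
  · filter_upwards [hev2] with z hz
    have hz0 : 0 < z.1 := by linarith [hz.1]
    refine ContinuousOn.aestronglyMeasurable ?_ measurableSet_Ioc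
    intro u hu
    exact (ContinuousAt.comp (f := fun u : ℝ => (z, u)) (g := fun p : (ℝ × ℝ) × ℝ =>
      p.1.1 * f (p.1.1 - (p.1.1 - p.1.1 * p.2)) (p.1.1 - p.1.1 * p.2) p.1.2)
      (hcz z hz0 u hu) (by fun_prop)).continuousWithinAt
  · filter_upwards [hev2] with z hz
    have hz0 : 0 < z.1 := by linarith [hz.1]
    filter_upwards [ae_restrict_mem measurableSet_Ioc] with u hu
    have e1 : z.1 - (z.1 - z.1 * u) = z.1 * u := by ring
    have h3 : 0 < z.1 * u := mul_pos hz0 hu.1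
    rw [Real.norm_eq_abs, abs_mul, abs_of_pos hz0, e1]
    have h4 : |f (z.1 * u) (z.1 - z.1 * u) z.2| ≤ K / √(t / 2 * u) := by
      refine (hfb _ h3 _ _).trans ?_
      have h5 : 0 < t / 2 * u := mul_pos (by positivity) hu.1
      apply div_le_div_of_nonneg_left hK (by positivity)
      apply Real.sqrt_le_sqrt
      exact mul_le_mul_of_nonneg_right hz.1.le hu.1.le
    calc z.1 * |f (z.1 * u) (z.1 - z.1 * u) z.2| ≤ 2 * t * (K / √(t / 2 * u)) :=
          mul_le_mul hz.2.le h4 (abs_nonneg _) (by positivity)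
      _ = _ := by
          rw [Real.sqrt_mul (by positivity)]
          field_simp
  · filter_upwards [ae_restrict_mem measurableSet_Ioc] with u hu
    exact ContinuousAt.comp (f := fun z : ℝ × ℝ => (z, u)) (g := fun p : (ℝ × ℝ) × ℝ =>
      p.1.1 * f (p.1.1 - (p.1.1 - p.1.1 * p.2)) (p.1.1 - p.1.1 * p.2) p.1.2)
      (hcz (t, s) ht u hu) (by fun_prop)

/-- differentiation of weakly singular integrals in `s` -/
theorem weak_hs {f0 : ℝ → ℝ → ℝ → ℝ} (hfc : ∀ σ > 0, ∀ τ s, ContinuousAt (fun z : ℝ × ℝ × ℝ => f z.1 z.2.1 z.2.2) (σ, τ, s))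
    (hfb : ∀ σ > 0, ∀ τ s, |f σ τ s| ≤ K / √σ) {t : ℝ} (ht : 0 ≤ t)
    (h0 : ∀ s, IntervalIntegrable (fun τ => f0 (t - τ) τ s) volume 0 t)
    (hd : ∀ σ > 0, ∀ τ s, HasDerivAt (fun s => f0 σ τ s) (f σ τ s) s) (s : ℝ) :
    HasDerivAt (fun s => ∫ τ in (0 : ℝ)..t, f0 (t - τ) τ s) (∫ τ in (0 : ℝ)..t, f (t - τ) τ s) s := by
  have hne : ∀ᵐ τ : ℝ, τ ≠ t := by
    rw [ae_iff]
    simp
  refine (intervalIntegral.hasDerivAt_integral_of_dominated_loc_of_deriv_le (s := univ)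
    (F := fun s τ => f0 (t - τ) τ s) (F' := fun s τ => f (t - τ) τ s)
    (bound := fun τ => K / √(t - τ)) univ_mem
    (Eventually.of_forall fun x => ?_) (h0 s) ?_ ?_ (sqrt_int K ht).1 ?_).2
  · have := (h0 x).aestronglyMeasurable
    rwa [← uIoc_of_le ht] at this
  · have := (weak_int hfc hfb ht s).1.aestronglyMeasurable
    rwa [← uIoc_of_le ht] at this
  · filter_upwards [hne] with τ hτ hτ2 x _
    rw [uIoc_of_le ht] at hτ2
    have : 0 < t - τ := by
      have := lt_of_le_of_ne hτ2.2 hτ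
      linarith
    rw [Real.norm_eq_abs]
    exact hfb _ this τ x
  · filter_upwards [hne] with τ hτ hτ2 x _
    rw [uIoc_of_le ht] at hτ2
    have : 0 < t - τ := by
      have := lt_of_le_of_ne hτ2.2 hτ
      linarith
    exact hd _ this τ x

/-! ### Duhamel integrals with a global right side -/

section glob

variable (h1 : T_GG1) (hgc : Continuous fun z : ℝ × ℝ => g z.1 z.2) (hM : ∀ τ x, |g τ x| ≤ M)
  (hL : ∀ τ x y, |g τ x - g τ y| ≤ L * |x - y|)

include hgc in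
theorem gm (τ : ℝ) : Measurable (g τ) :=
  (hgc.comp (by fun_prop : Continuous fun x : ℝ => (τ, x))).measurable

include hgc in
theorem gcτ (x : ℝ) : Continuous fun τ => g τ x :=
  hgc.comp (by fun_prop : Continuous fun τ : ℝ => (τ, x))

include hgc hM in
theorem f_cont (i : Fin 3) : ∀ σ > 0, ∀ τ s, ContinuousAt
    (fun z : ℝ × ℝ × ℝ => (fun σ τ s => Gi i σ (g τ) s) z.1 z.2.1 z.2.2) (σ, τ, s) :=
  fun _ hσ τ s => Gi_cont i (gm hgc) hM (gcτ hgc) hσ τ s

include hgc hM in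
theorem f1_bd : ∀ σ > 0, ∀ τ s, |(fun σ τ s => Gi 1 σ (g τ) s) σ τ s| ≤ M / √σ :=
  fun _ hσ τ s => Gi1_bd hσ (gm hgc τ) (hM τ) s

include h1 hgc hM hL in
theorem f2_bd : ∀ σ > 0, ∀ τ s, |(fun σ τ s => Gi 2 σ (g τ) s) σ τ s| ≤ L / √σ := by
  intro σ hσ τ s
  have := ((gg2 h1).lip σ hσ (g τ) M L (gm hgc τ) (hM τ) (hL τ) s).2
  rwa [(dGG hσ (gm hgc τ) (hM τ)).2.1] at this

/-- the Duhamel integral -/
noncomputable def DD (g : ℝ → ℝ → ℝ) (t s : ℝ) : ℝ := ∫ τ in (0 : ℝ)..t, GG (t - τ) (g τ) s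

theorem DD_GH {t : ℝ} (ht : 0 ≤ t) (s : ℝ) : DD g t s = ∫ τ in (0 : ℝ)..t, GH (t - τ) (g τ) s := by
  unfold DD
  rw [intervalIntegral.integral_of_le ht, intervalIntegral.integral_of_le ht,
    ← restrict_Ioo_eq_restrict_Ioc]
  refine setIntegral_congr_fun measurableSet_Ioo fun τ hτ => ?_
  exact (GH_pos (by linarith [hτ.2]) (g τ) s).symm

include hgc hM in
theorem DD_cont : ContinuousOn (fun z : ℝ × ℝ => DD g z.1 z.2) (Ici 0 ×ˢ univ) := by
  have h2 : Continuous fun z : ℝ × ℝ => ∫ τ in (0 : ℝ)..z.1, GH (z.1 - τ) (g τ) z.2 := by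
    refine intervalIntegral.continuous_parametric_intervalIntegral_of_continuous
      (f := fun (z : ℝ × ℝ) τ => GH (z.1 - τ) (g τ) z.2) ?_ continuous_fst
    exact (GH_cont hgc hM).comp
      (by fun_prop : Continuous fun p : (ℝ × ℝ) × ℝ => (p.1.1 - p.2, p.2, p.1.2))
  exact h2.continuousOn.congr fun z hz => DD_GH hz.1 z.2

include hgc hM in
theorem GHτ_int (t s : ℝ) : IntervalIntegrable (fun τ => GH (t - τ) (g τ) s) volume 0 t := by
  apply Continuous.intervalIntegrable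
  exact (GH_cont hgc hM).comp (by fun_prop : Continuous fun τ : ℝ => (t - τ, τ, s))

include hgc hM in
theorem GGτ_int {t : ℝ} (ht : 0 ≤ t) (s : ℝ) :
    IntervalIntegrable (fun τ => (fun σ τ s => GG σ (g τ) s) (t - τ) τ s) volume 0 t := by
  refine (GHτ_int hgc hM t s).congr_ae ?_
  rw [uIoc_of_le ht, ← restrict_Ioo_eq_restrict_Ioc]
  filter_upwards [ae_restrict_mem measurableSet_Ioo] with τ hτ
  exact GH_pos (by linarith [hτ.2]) (g τ) s

include h1 hM in
theorem DD_bd {t : ℝ} (ht : 0 ≤ t) (s : ℝ) : |DD g t s| ≤ M * t := by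
  rw [DD_GH ht, ← Real.norm_eq_abs]
  refine (intervalIntegral.norm_integral_le_of_norm_le_const (C := M) fun τ _ => ?_).trans ?_
  · rw [Real.norm_eq_abs]; exact GH_bd h1 (hM τ) _ s
  · rw [sub_zero, abs_of_nonneg ht]

/-- first and second derivatives -/
noncomputable def D1 (g : ℝ → ℝ → ℝ) (t s : ℝ) : ℝ := ∫ τ in (0 : ℝ)..t, Gi 1 (t - τ) (g τ) s
noncomputable def D2 (g : ℝ → ℝ → ℝ) (t s : ℝ) : ℝ := ∫ τ in (0 : ℝ)..t, Gi 2 (t - τ) (g τ) s

include hgc hM in
theorem DD_hs {t : ℝ} (ht : 0 ≤ t) (s : ℝ) : HasDerivAt (DD g t) (D1 g t s) s :=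
  weak_hs (f := fun σ τ s => Gi 1 σ (g τ) s) (f0 := fun σ τ s => GG σ (g τ) s) (K := M)
    (f_cont hgc hM 1) (f1_bd hgc hM) ht (fun s => GGτ_int hgc hM ht s)
    (fun σ hσ τ s => (dGG hσ (gm hgc τ) (hM τ)).2.2.1 s) s

include h1 hgc hM hL in
theorem D1_hs {t : ℝ} (ht : 0 ≤ t) (s : ℝ) : HasDerivAt (D1 g t) (D2 g t s) s :=
  weak_hs (f := fun σ τ s => Gi 2 σ (g τ) s) (f0 := fun σ τ s => Gi 1 σ (g τ) s) (K := L)
    (f_cont hgc hM 2) (f2_bd h1 hgc hM hL) ht
    (fun s => (weak_int (f_cont hgc hM 1) (f1_bd hgc hM) ht s).1)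
    (fun σ hσ τ s => (dGG hσ (gm hgc τ) (hM τ)).2.2.2 s) s

include h1 hgc hM hL in
theorem inner {τ t : ℝ} (hτ : τ ≤ t) (s : ℝ) :
    IntervalIntegrable (fun r => Gi 2 (r - τ) (g τ) s) volume τ t ∧
    ∫ r in τ..t, Gi 2 (r - τ) (g τ) s = GH (t - τ) (g τ) s - g τ s := by
  have hi : IntervalIntegrable (fun r => Gi 2 (r - τ) (g τ) s) volume τ t := by
    have h3 : IntervalIntegrable (fun r => L / √(r - τ)) volume τ t := by
      have := (sqrt_int0 L (by linarith : 0 ≤ t - τ)).1.comp_sub_right τ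
      simpa using this
    refine h3.mono_fun' ?_ ?_
    · rw [uIoc_of_le hτ]
      refine ContinuousOn.aestronglyMeasurable ?_ measurableSet_Ioc
      intro r hr
      exact (ContinuousAt.comp (f := fun r : ℝ => ((r - τ, τ, s) : ℝ × ℝ × ℝ))
        (g := fun z : ℝ × ℝ × ℝ => Gi 2 z.1 (g z.2.1) z.2.2)
        (f_cont hgc hM 2 _ (by linarith [hr.1]) τ s) (by fun_prop)).continuousWithinAt
    · rw [uIoc_of_le hτ]
      filter_upwards [ae_restrict_mem measurableSet_Ioc] with r hr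
      rw [Real.norm_eq_abs]
      exact f2_bd h1 hgc hM hL _ (by linarith [hr.1]) τ s
  refine ⟨hi, ?_⟩
  have h4 := intervalIntegral.integral_eq_sub_of_hasDerivAt_of_le hτ
    (f := fun r => GH (r - τ) (g τ) s) (f' := fun r => Gi 2 (r - τ) (g τ) s) ?_ ?_ hi
  · rw [h4, sub_self, GH_zero h1]
  · exact ((GH_cont hgc hM).comp
      (by fun_prop : Continuous fun r : ℝ => (r - τ, τ, s))).continuousOn
  · intro r hr
    have h5 : HasDerivAt (fun r => GG (r - τ) (g τ) s) (Gi 2 (r - τ) (g τ) s) r :=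
      (Gi_ht (by linarith [hr.1] : 0 < r - τ) (gm hgc τ) (hM τ) s).comp_sub_const r τ
    refine h5.congr_of_eventuallyEq ?_
    filter_upwards [Ioi_mem_nhds hr.1] with r' hr'
    have : τ < r' := hr'
    exact GH_pos (by linarith) (g τ) s

include h1 hgc hM hL in
theorem fub {t : ℝ} (ht : 0 ≤ t) (s : ℝ) :
    IntervalIntegrable (fun r => D2 g r s) volume 0 t ∧
    ∫ r in (0 : ℝ)..t, D2 g r s = ∫ τ in (0 : ℝ)..t, (GH (t - τ) (g τ) s - g τ s) := by
  set H : ℝ × ℝ → ℝ := {p : ℝ × ℝ | p.2 < p.1}.indicator fun p => Gi 2 (p.1 - p.2) (g p.2) s with hH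
  have hms : MeasurableSet {p : ℝ × ℝ | p.2 < p.1} := (isOpen_lt continuous_snd continuous_fst).measurableSet
  set μ : Measure ℝ := volume.restrict (Ioc 0 t) with hμ
  set b : ℝ → ℝ := (Ioc 0 t).indicator fun x => L / √x with hb
  set o : ℝ → ℝ := (Ioc 0 t).indicator fun _ => 1 with ho
  have hbi : Integrable b := by
    rw [hb, integrable_indicator_iff measurableSet_Ioc]
    have := (sqrt_int0 L ht).1
    rwa [intervalIntegrable_iff_integrableOn_Ioc_of_le ht] at this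
  have hoi : Integrable o := by
    rw [ho, integrable_indicator_iff measurableSet_Ioc]
    exact integrableOn_const (by simp)
  have hconv : Integrable (fun p : ℝ × ℝ => o p.2 * b (p.1 - p.2)) (volume.prod volume) :=
    Integrable.convolution_integrand (ContinuousLinearMap.mul ℝ ℝ) hoi hbi
  have hprod : μ.prod μ = (volume.prod volume : Measure (ℝ × ℝ)).restrict (Ioc 0 t ×ˢ Ioc 0 t) :=
    Measure.prod_restrict _ _
  have hHm : AEStronglyMeasurable H (μ.prod μ) := by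
    refine AEStronglyMeasurable.mono_ac (Measure.absolutelyContinuous_of_le ?_)
      (?_ : AEStronglyMeasurable H (volume.prod volume))
    · rw [hprod]; exact Measure.restrict_le_self
    · rw [hH, aestronglyMeasurable_indicator_iff hms]
      refine ContinuousOn.aestronglyMeasurable ?_ hms
      intro p hp
      have hp' : p.2 < p.1 := hp
      exact (ContinuousAt.comp (f := fun p : ℝ × ℝ => ((p.1 - p.2, p.2, s) : ℝ × ℝ × ℝ))
        (g := fun z : ℝ × ℝ × ℝ => Gi 2 z.1 (g z.2.1) z.2.2)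
        (f_cont hgc hM 2 _ (by linarith) p.2 s) (by fun_prop)).continuousWithinAt
  have hHi : Integrable H (μ.prod μ) := by
    rw [hprod] at hHm ⊢
    refine (hconv.restrict (s := Ioc 0 t ×ˢ Ioc 0 t)).mono' hHm ?_
    filter_upwards [ae_restrict_mem (measurableSet_Ioc.prod measurableSet_Ioc)] with p hp
    by_cases h : p ∈ {p : ℝ × ℝ | p.2 < p.1}
    · have h' : p.2 < p.1 := h
      rw [hH, indicator_of_mem h, ho, indicator_of_mem hp.2, one_mul, hb,
        indicator_of_mem (show p.1 - p.2 ∈ Ioc 0 t from ⟨by linarith, by linarith [hp.1.2, hp.2.1]⟩),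
        Real.norm_eq_abs]
      exact f2_bd h1 hgc hM hL _ (by linarith) p.2 s
    · rw [hH, indicator_of_notMem h, norm_zero]
      refine mul_nonneg ?_ ?_
      · rw [ho]; exact indicator_nonneg (fun _ _ => zero_le_one) _
      · rw [hb]
        refine indicator_nonneg (fun x hx => ?_) _
        exact (abs_nonneg _).trans (f2_bd h1 hgc hM hL x hx.1 0 s)
  have hin1 : ∀ r ∈ Ioc (0 : ℝ) t, ∫ τ, H (r, τ) ∂μ = D2 g r s := by
    intro r hr
    have e1 : ∀ τ, H (r, τ) = (Iio r).indicator (fun τ => Gi 2 (r - τ) (g τ) s) τ := fun τ => rfl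
    simp only [e1]
    unfold D2
    rw [integral_indicator measurableSet_Iio, hμ, Measure.restrict_restrict measurableSet_Iio,
      intervalIntegral.integral_of_le hr.1.le, ← restrict_Ioo_eq_restrict_Ioc (b := r)]
    congr 2
    ext x
    simp only [mem_inter_iff, mem_Iio, mem_Ioc, mem_Ioo]
    constructor
    · rintro ⟨h1, h2, -⟩; exact ⟨h2, h1⟩
    · rintro ⟨h1, h2⟩; exact ⟨h2, h1, by linarith [hr.2]⟩
  have hin2 : ∀ τ ∈ Ioc (0 : ℝ) t, ∫ r, H (r, τ) ∂μ = GH (t - τ) (g τ) s - g τ s := by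
    intro τ hτ
    have e1 : ∀ r, H (r, τ) = (Ioi τ).indicator (fun r => Gi 2 (r - τ) (g τ) s) r := fun r => rfl
    simp only [e1]
    rw [integral_indicator measurableSet_Ioi, hμ, Measure.restrict_restrict measurableSet_Ioi,
      ← (inner h1 hgc hM hL hτ.2 s).2, intervalIntegral.integral_of_le hτ.2]
    congr 2
    ext x
    simp only [mem_inter_iff, mem_Ioi, mem_Ioc]
    constructor
    · rintro ⟨h1, h2, h3⟩; exact ⟨h1, h3⟩
    · rintro ⟨h1, h2⟩; exact ⟨h1, by linarith [hτ.1], h2⟩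
  constructor
  · rw [intervalIntegrable_iff_integrableOn_Ioc_of_le ht]
    have := hHi.integral_prod_left
    refine this.congr ?_
    rw [hμ]
    filter_upwards [ae_restrict_mem measurableSet_Ioc] with r hr using hin1 r hr
  · rw [intervalIntegral.integral_of_le ht, intervalIntegral.integral_of_le ht]
    have hsw := integral_integral_swap (f := fun r τ => H (r, τ)) hHi
    calc ∫ r in Ioc 0 t, D2 g r s = ∫ r, ∫ τ, H (r, τ) ∂μ ∂μ :=
          setIntegral_congr_fun measurableSet_Ioc fun r hr => (hin1 r hr).symm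
      _ = ∫ τ, ∫ r, H (r, τ) ∂μ ∂μ := hsw
      _ = _ := setIntegral_congr_fun measurableSet_Ioc fun τ hτ => hin2 τ hτ

include h1 hgc hM hL in
theorem DD_int {t : ℝ} (ht : 0 ≤ t) (s : ℝ) :
    DD g t s = ∫ r in (0 : ℝ)..t, (D2 g r s + g r s) := by
  obtain ⟨a1, a2⟩ := fub h1 hgc hM hL ht s
  have hgi : IntervalIntegrable (fun r => g r s) volume 0 t := (gcτ hgc s).intervalIntegrable _ _
  rw [intervalIntegral.integral_add a1 hgi, a2, intervalIntegral.integral_sub (GHτ_int hgc hM t s) hgi,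
    ← DD_GH ht]
  ring

include h1 hgc hM hL in
theorem DD_ht {t : ℝ} (ht : 0 < t) (s : ℝ) :
    HasDerivAt (fun τ => DD g τ s) (D2 g t s + g t s) t := by
  have hgi : IntervalIntegrable (fun r => g r s) volume 0 t := (gcτ hgc s).intervalIntegrable _ _
  have hD2c : ∀ r > 0, ContinuousAt (fun r => D2 g r s) r := by
    intro r hr
    exact ContinuousAt.comp (f := fun r : ℝ => (r, s)) (g := fun z : ℝ × ℝ => D2 g z.1 z.2)
      (weak_cont (f_cont hgc hM 2) (f2_bd h1 hgc hM hL) hr s) (by fun_prop)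
  have hco : ContinuousAt (fun r => D2 g r s + g r s) t :=
    (hD2c t ht).add (gcτ hgc s).continuousAt
  have hsm : StronglyMeasurableAtFilter (fun r => D2 g r s + g r s) (𝓝 t) := by
    refine ContinuousOn.stronglyMeasurableAtFilter isOpen_Ioi (s := Ioi 0) ?_ t ht
    intro r hr
    exact ((hD2c r hr).add (gcτ hgc s).continuousAt).continuousWithinAt
  have h2 := intervalIntegral.integral_hasDerivAt_right
    ((fub h1 hgc hM hL ht.le s).1.add hgi) hsm hco
  refine h2.congr_of_eventuallyEq ?_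
  filter_upwards [Ioi_mem_nhds ht] with r hr
  exact DD_int h1 hgc hM hL (le_of_lt hr) s

end glob

/-- module DUH -/
theorem duh (h1 : T_GG1) : T_DUH := by
  intro T M L g hT hM0 hL0 hgc hM hL D
  set g' : ℝ → ℝ → ℝ := fun τ x => g (max 0 (min τ T)) x with hg'
  have hcl : ∀ τ : ℝ, max 0 (min τ T) ∈ Icc 0 T := fun τ =>
    ⟨le_max_left _ _, max_le hT.le (min_le_right _ _)⟩
  have hgc' : Continuous fun z : ℝ × ℝ => g' z.1 z.2 := by
    have : Continuous fun z : ℝ × ℝ => ((max 0 (min z.1 T), z.2) : ℝ × ℝ) := by fun_prop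
    exact hgc.comp_continuous this fun z => ⟨hcl z.1, mem_univ _⟩
  have hM' : ∀ τ x, |g' τ x| ≤ M := fun τ x => hM _ (hcl τ) x
  have hL' : ∀ τ x y, |g' τ x - g' τ y| ≤ L * |x - y| := fun τ x y => hL _ (hcl τ) x y
  have heq : ∀ τ ∈ Icc 0 T, g' τ = g τ := by
    intro τ hτ
    funext x
    simp only [hg']
    rw [min_eq_left hτ.2, max_eq_right hτ.1]
  have hD : ∀ t ∈ Icc 0 T, D t = DD g' t := by
    intro t ht
    funext s
    change ∫ τ in (0 : ℝ)..t, GG (t - τ) (g τ) s = ∫ τ in (0 : ℝ)..t, GG (t - τ) (g' τ) s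
    refine intervalIntegral.integral_congr fun τ hτ => ?_
    rw [uIcc_of_le ht.1] at hτ
    rw [heq τ ⟨hτ.1, hτ.2.trans ht.2⟩]
  have hd1 : ∀ t ∈ Icc 0 T, deriv (D t) = D1 g' t := by
    intro t ht
    rw [hD t ht]
    funext s
    exact (DD_hs hgc' hM' ht.1 s).deriv
  have hd2 : ∀ t ∈ Icc 0 T, deriv (deriv (D t)) = D2 g' t := by
    intro t ht
    rw [hd1 t ht]
    funext s
    exact (D1_hs h1 hgc' hM' hL' ht.1 s).deriv
  have hIo : ∀ z : ℝ × ℝ, z ∈ Ioo 0 T ×ˢ (univ : Set ℝ) → z.1 ∈ Icc 0 T := fun z hz =>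
    ⟨hz.1.1.le, hz.1.2.le⟩
  refine ⟨?_, ?_, ?_, ?_⟩
  · refine ((DD_cont hgc' hM').mono (prod_mono_left Icc_subset_Ici_self)).congr fun z hz => ?_
    simp only
    rw [hD z.1 hz.1]
  · have : ContinuousOn (fun z : ℝ × ℝ => D1 g' z.1 z.2) (Ioo 0 T ×ˢ univ) := fun z hz =>
      (weak_cont (f_cont hgc' hM' 1) (f1_bd hgc' hM') hz.1.1 z.2).continuousWithinAt
    refine this.congr fun z hz => ?_
    simp only
    rw [hd1 z.1 (hIo z hz)]
  · have : ContinuousOn (fun z : ℝ × ℝ => D2 g' z.1 z.2) (Ioo 0 T ×ˢ univ) := fun z hz =>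
      (weak_cont (f_cont hgc' hM' 2) (f2_bd h1 hgc' hM' hL') hz.1.1 z.2).continuousWithinAt
    refine this.congr fun z hz => ?_
    simp only
    rw [hd2 z.1 (hIo z hz)]
  · intro t ht
    have ht' : t ∈ Icc 0 T := ⟨ht.1.le, ht.2.le⟩
    have hc2 : Continuous (D2 g' t) := by
      rw [continuous_iff_continuousAt]
      intro s
      exact ContinuousAt.comp (f := fun s : ℝ => (t, s)) (g := fun z : ℝ × ℝ => D2 g' z.1 z.2)
        (weak_cont (f_cont hgc' hM' 2) (f2_bd h1 hgc' hM' hL') ht.1 s) (by fun_prop)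
    refine ⟨?_, fun s => ⟨?_, ?_, ?_, ?_⟩⟩
    · rw [hD t ht']
      exact c2_of (fun s => DD_hs hgc' hM' ht.1.le s) (fun s => D1_hs h1 hgc' hM' hL' ht.1.le s) hc2
    · rw [hD t ht']; exact DD_bd h1 hM' ht.1.le s
    · rw [hd1 t ht']
      exact (weak_int (f_cont hgc' hM' 1) (f1_bd hgc' hM') ht.1.le s).2
    · rw [hd2 t ht']
      exact (weak_int (f_cont hgc' hM' 2) (f2_bd h1 hgc' hM' hL') ht.1.le s).2
    · rw [hd2 t ht', ← heq t ht']
      refine (DD_ht h1 hgc' hM' hL' ht.1 s).congr_of_eventuallyEq ?_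
      filter_upwards [Ioo_mem_nhds ht.1 ht.2] with r hr
      rw [hD r ⟨hr.1.le, hr.2.le⟩]

end Pool.Agent.H33.HK
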