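import Pool.Agent.H96.HK.Basic

/-!
# MP_e94f6f_an, module GG2: smoothing of the one-dimensional heat semigroup
-/

set_option autoImplicit false

open MeasureTheory Set Filter Topology
open scoped ContDiff

namespace Pool.Agent.H33.HK

open Pool.Agent.H96.HK

/-- polynomial factors of the derivatives of the heat kernel -/
noncomputable def pp (i : Fin 3) (t x : ℝ) : ℝ :=
  match i with
  | 0 => 1
  | 1 => -(x / (2 * t))
  | 2 => x ^ 2 / (4 * t ^ 2) - 1 / (2 * t)

/-- derivatives of the heat kernel -/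
noncomputable def kk (i : Fin 3) (t x : ℝ) : ℝ := pp i t x * gg t x

/-- convolution with the derivatives of the heat kernel -/
noncomputable def Gi (i : Fin 3) (t : ℝ) (g : ℝ → ℝ) (s : ℝ) : ℝ := ∫ r, kk i t (s - r) * g r

theorem Gi_zero (t : ℝ) (g : ℝ → ℝ) (s : ℝ) : Gi 0 t g s = GG t g s := by
  unfold Gi GG kk pp
  simp

theorem gg_pos {t : ℝ} (ht : 0 < t) (x : ℝ) : 0 < gg t x := by
  unfold gg
  have : 0 < 4 * Real.pi * t := by positivity
  positivity

theorem gg_cont {t : ℝ} (ht : 0 < t) (x : ℝ) : ContinuousAt (fun z : ℝ × ℝ => gg z.1 z.2) (t, x) := by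
  unfold gg
  have h1 : (√(4 * Real.pi * t)) ≠ 0 := by
    have : 0 < 4 * Real.pi * t := by positivity
    positivity
  have h2 : (4 * t) ≠ 0 := by positivity
  refine ContinuousAt.mul (ContinuousAt.inv₀ ?_ h1) ?_
  · exact (Real.continuous_sqrt.comp (by fun_prop)).continuousAt
  · refine (Real.continuous_exp.continuousAt).comp (ContinuousAt.neg ?_)
    exact ContinuousAt.div (by fun_prop) (by fun_prop) h2

theorem pp_cont (i : Fin 3) {t : ℝ} (ht : 0 < t) (x : ℝ) :
    ContinuousAt (fun z : ℝ × ℝ => pp i z.1 z.2) (t, x) := by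
  fin_cases i
  · exact continuousAt_const
  · refine ContinuousAt.neg (ContinuousAt.div (by fun_prop) (by fun_prop) ?_)
    simp only
    positivity
  · refine ContinuousAt.sub (ContinuousAt.div (by fun_prop) (by fun_prop) ?_)
      (ContinuousAt.div (by fun_prop) (by fun_prop) ?_)
    · simp only; positivity
    · simp only; positivity

theorem kk_cont (i : Fin 3) {t : ℝ} (ht : 0 < t) (x : ℝ) :
    ContinuousAt (fun z : ℝ × ℝ => kk i z.1 z.2) (t, x) := (pp_cont i ht x).mul (gg_cont ht x)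

theorem kk_cont1 (i : Fin 3) {t : ℝ} (ht : 0 < t) : Continuous (kk i t) := by
  rw [continuous_iff_continuousAt]
  intro x
  exact ContinuousAt.comp (f := fun x : ℝ => (t, x)) (g := fun z : ℝ × ℝ => kk i z.1 z.2)
    (kk_cont i ht x) (by fun_prop)

/-- Gaussian domination -/
theorem dom {a b R : ℝ} (ha : 0 < a) (hab : a ≤ b) : ∃ C c : ℝ, 0 ≤ C ∧ 0 < c ∧ ∀ (i : Fin 3),
    ∀ t ∈ Icc a b, ∀ s, |s| ≤ R → ∀ r, |kk i t (s - r)| ≤ C * Real.exp (-c * r ^ 2) := by
  have hb : 0 < b := by linarith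
  set A := 1 + 1 / (2 * a) + 1 / (4 * a ^ 2) with hA
  set D := A * (1 + 8 * b) * (√(4 * Real.pi * a))⁻¹ with hD
  have hA0 : 0 < A := by positivity
  have hpa : 0 < 4 * Real.pi * a := by positivity
  refine ⟨D * Real.exp (R ^ 2 / (8 * b)), 1 / (16 * b), by positivity, by positivity, ?_⟩
  intro i t ht s hs r
  have ht0 : 0 < t := lt_of_lt_of_le ha ht.1
  set x := s - r with hx
  have hpp : |pp i t x| ≤ A * (1 + x ^ 2) := by
    have e1 : 1 / (2 * t) ≤ 1 / (2 * a) := by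
      apply one_div_le_one_div_of_le (by positivity); linarith [ht.1]
    have e2 : 1 / (4 * t ^ 2) ≤ 1 / (4 * a ^ 2) := by
      apply one_div_le_one_div_of_le (by positivity)
      have := pow_le_pow_left₀ ha.le ht.1 2
      linarith
    have e3 : 0 < 1 / (2 * t) := by positivity
    have e4 : 0 < 1 / (4 * t ^ 2) := by positivity
    have hx2 := sq_nonneg x
    have hAe : A = 1 + 1 / (2 * a) + 1 / (4 * a ^ 2) := hA
    set u := 1 / (2 * a) with hu
    set v := 1 / (4 * a ^ 2) with hv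
    have hu0 : 0 < u := by positivity
    have hv0 : 0 < v := by positivity
    fin_cases i
    · simp only [pp]
      rw [abs_one, hAe]
      nlinarith [mul_nonneg hu0.le hx2, mul_nonneg hv0.le hx2]
    · simp only [pp]
      rw [abs_neg, abs_div, abs_of_pos (by positivity : 0 < 2 * t)]
      have h1 : |x| ≤ 1 + x ^ 2 := by
        rcases abs_cases x with ⟨h, -⟩ | ⟨h, -⟩ <;> rw [h] <;> nlinarith [sq_nonneg (x - 1), sq_nonneg (x + 1)]
      calc |x| / (2 * t) = |x| * (1 / (2 * t)) := by ring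
        _ ≤ (1 + x ^ 2) * u := mul_le_mul h1 e1 e3.le (by positivity)
        _ ≤ A * (1 + x ^ 2) := by
            rw [mul_comm]
            apply mul_le_mul_of_nonneg_right _ (by positivity)
            rw [hAe]; linarith
    · simp only [pp]
      have h1 : |x ^ 2 / (4 * t ^ 2) - 1 / (2 * t)| ≤ x ^ 2 / (4 * t ^ 2) + 1 / (2 * t) := by
        rw [abs_le]
        have : 0 ≤ x ^ 2 / (4 * t ^ 2) := by positivity
        constructor <;> linarith
      refine h1.trans ?_
      have h2 : x ^ 2 / (4 * t ^ 2) ≤ v * x ^ 2 := by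
        calc x ^ 2 / (4 * t ^ 2) = x ^ 2 * (1 / (4 * t ^ 2)) := by ring
          _ ≤ x ^ 2 * v := mul_le_mul_of_nonneg_left e2 hx2
          _ = _ := by ring
      rw [hAe]
      nlinarith [mul_nonneg hu0.le hx2]
  have hgg : gg t x ≤ (√(4 * Real.pi * a))⁻¹ * Real.exp (-(x ^ 2 / (4 * b))) := by
    unfold gg
    refine mul_le_mul ?_ ?_ (Real.exp_pos _).le (by positivity)
    · apply inv_anti₀ (by positivity)
      apply Real.sqrt_le_sqrt
      have := mul_le_mul_of_nonneg_left ht.1 (by positivity : 0 ≤ 4 * Real.pi)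
      exact this
    · apply Real.exp_le_exp.2
      rw [neg_le_neg_iff]
      apply div_le_div_of_nonneg_left (sq_nonneg x) (by positivity)
      linarith [ht.2]
  have hexp : 1 + x ^ 2 ≤ (1 + 8 * b) * Real.exp (x ^ 2 / (8 * b)) := by
    have h1 := Real.add_one_le_exp (x ^ 2 / (8 * b))
    have h2 : x ^ 2 / (8 * b) * (8 * b) = x ^ 2 := by field_simp
    have h3 : 0 ≤ x ^ 2 / (8 * b) := by positivity
    nlinarith
  have hsplit : Real.exp (x ^ 2 / (8 * b)) * Real.exp (-(x ^ 2 / (4 * b))) =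
      Real.exp (-(x ^ 2 / (8 * b))) := by
    rw [← Real.exp_add]; congr 1; field_simp; ring
  have hxr : Real.exp (-(x ^ 2 / (8 * b))) ≤
      Real.exp (R ^ 2 / (8 * b)) * Real.exp (-(1 / (16 * b)) * r ^ 2) := by
    rw [← Real.exp_add]
    apply Real.exp_le_exp.2
    have h1 : s ^ 2 ≤ R ^ 2 := sq_le_sq' (by linarith [neg_abs_le s]) ((le_abs_self s).trans hs)
    have h2 : r ^ 2 / 2 ≤ x ^ 2 + R ^ 2 := by
      have : r ^ 2 ≤ 2 * x ^ 2 + 2 * s ^ 2 := by
        have : r = s - x := by rw [hx]; ring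
        rw [this]; nlinarith [sq_nonneg (s + x)]
      linarith
    have h3 : (R ^ 2 / (8 * b) + -(1 / (16 * b)) * r ^ 2) - (-(x ^ 2 / (8 * b))) =
        (R ^ 2 + x ^ 2 - r ^ 2 / 2) / (8 * b) := by field_simp; ring
    have h4 : 0 ≤ (R ^ 2 + x ^ 2 - r ^ 2 / 2) / (8 * b) := by
      apply div_nonneg _ (by positivity); linarith
    linarith
  unfold kk
  rw [abs_mul, abs_of_pos (gg_pos ht0 x)]
  calc |pp i t x| * gg t x ≤ (A * ((1 + 8 * b) * Real.exp (x ^ 2 / (8 * b)))) *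
        ((√(4 * Real.pi * a))⁻¹ * Real.exp (-(x ^ 2 / (4 * b)))) := by
        refine mul_le_mul (hpp.trans ?_) hgg (gg_pos ht0 x).le (by positivity)
        exact mul_le_mul_of_nonneg_left hexp hA0.le
    _ = D * (Real.exp (x ^ 2 / (8 * b)) * Real.exp (-(x ^ 2 / (4 * b)))) := by rw [hD]; ring
    _ = D * Real.exp (-(x ^ 2 / (8 * b))) := by rw [hsplit]
    _ ≤ D * (Real.exp (R ^ 2 / (8 * b)) * Real.exp (-(1 / (16 * b)) * r ^ 2)) :=
        mul_le_mul_of_nonneg_left hxr (by positivity)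
    _ = _ := by ring

theorem gauss_int {c : ℝ} (hc : 0 < c) : Integrable fun r : ℝ => Real.exp (-c * r ^ 2) :=
  integrable_exp_neg_mul_sq hc

theorem kk_int (i : Fin 3) {t : ℝ} (ht : 0 < t) : Integrable (kk i t) := by
  obtain ⟨C, c, hC, hc, h⟩ := dom (R := 0) ht le_rfl
  refine ((gauss_int hc).const_mul C).mono' (kk_cont1 i ht).aestronglyMeasurable ?_
  refine Eventually.of_forall fun r => ?_
  have := h i t ⟨le_rfl, le_rfl⟩ 0 (by simp) (-r)
  rw [zero_sub, neg_neg, neg_sq] at this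
  exact this

theorem kk_int_shift (i : Fin 3) {t : ℝ} (ht : 0 < t) (s : ℝ) :
    Integrable fun r => kk i t (s - r) := (kk_int i ht).comp_sub_left s

theorem Gi_int (i : Fin 3) {t : ℝ} (ht : 0 < t) {g : ℝ → ℝ} {M : ℝ} (hg : Measurable g)
    (hM : ∀ x, |g x| ≤ M) (s : ℝ) : Integrable fun r => kk i t (s - r) * g r := by
  refine (kk_int_shift i ht s).mul_bdd (c := M) hg.aestronglyMeasurable ?_
  exact Eventually.of_forall fun x => by rw [Real.norm_eq_abs]; exact hM x

/-- joint continuity with a parameter -/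
theorem Gi_cont (i : Fin 3) {g : ℝ → ℝ → ℝ} {M : ℝ} (hg : ∀ y, Measurable (g y))
    (hM : ∀ y x, |g y x| ≤ M) (hc : ∀ x, Continuous fun y => g y x) {t : ℝ} (ht : 0 < t) (y s : ℝ) :
    ContinuousAt (fun z : ℝ × ℝ × ℝ => Gi i z.1 (g z.2.1) z.2.2) (t, y, s) := by
  obtain ⟨C, c, hC, hc0, hd⟩ := dom (R := |s| + 1) (by positivity : 0 < t / 2)
    (by linarith : t / 2 ≤ 2 * t)
  have hev1 : ∀ᶠ z : ℝ × ℝ × ℝ in 𝓝 (t, y, s), z.1 ∈ Icc (t / 2) (2 * t) :=
    continuousAt_fst.eventually_mem (Icc_mem_nhds (by simp only; linarith) (by simp only; linarith))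
  have hev2 : ∀ᶠ z : ℝ × ℝ × ℝ in 𝓝 (t, y, s), |z.2.2| ≤ |s| + 1 := by
    have : ContinuousAt (fun z : ℝ × ℝ × ℝ => |z.2.2|) (t, y, s) := by fun_prop
    filter_upwards [this.eventually_lt continuousAt_const (by simp : |(t, y, s).2.2| < |s| + 1)]
      with z hz using hz.le
  have hM0 : 0 ≤ M := (abs_nonneg _).trans (hM 0 0)
  unfold Gi
  refine continuousAt_of_dominated (bound := fun r => M * (C * Real.exp (-c * r ^ 2))) ?_ ?_
    (((gauss_int hc0).const_mul C).const_mul M) ?_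
  · filter_upwards [hev1] with z hz
    have hz0 : 0 < z.1 := lt_of_lt_of_le (by positivity) hz.1
    exact (Gi_int i hz0 (hg z.2.1) (hM z.2.1) z.2.2).aestronglyMeasurable
  · filter_upwards [hev1, hev2] with z hz hz2
    refine Eventually.of_forall fun r => ?_
    rw [Real.norm_eq_abs, abs_mul, mul_comm]
    exact mul_le_mul (hM _ _) (hd i z.1 hz z.2.2 hz2 r) (abs_nonneg _) hM0
  · refine Eventually.of_forall fun r => ?_
    refine ContinuousAt.mul ?_ ?_
    · exact ContinuousAt.comp (f := fun z : ℝ × ℝ × ℝ => (z.1, z.2.2 - r))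
        (g := fun z : ℝ × ℝ => kk i z.1 z.2) (kk_cont i ht _) (by fun_prop)
    · exact ((hc r).comp (by fun_prop : Continuous fun z : ℝ × ℝ × ℝ => z.2.1)).continuousAt

/-! ### derivatives of the kernels -/

theorem gg_hx {t : ℝ} (ht : 0 < t) (x : ℝ) : HasDerivAt (gg t) (kk 1 t x) x := by
  unfold gg kk pp
  have h1 : HasDerivAt (fun x : ℝ => -(x ^ 2 / (4 * t))) (-((2 * x) / (4 * t))) x := by
    have := ((hasDerivAt_pow 2 x).div_const (4 * t)).fun_neg
    simpa using this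
  have h2 := (h1.exp).const_mul (√(4 * Real.pi * t))⁻¹
  refine h2.congr_deriv ?_
  simp only [gg]
  field_simp
  ring

theorem kk1_hx {t : ℝ} (ht : 0 < t) (x : ℝ) : HasDerivAt (kk 1 t) (kk 2 t x) x := by
  have h1 : HasDerivAt (fun x : ℝ => -(x / (2 * t))) (-(1 / (2 * t))) x :=
    ((hasDerivAt_id x).div_const (2 * t)).neg
  have h2 := h1.mul (gg_hx ht x)
  refine h2.congr_deriv ?_
  simp only [kk, pp]
  field_simp
  ring

theorem gg_ht {t : ℝ} (ht : 0 < t) (x : ℝ) : HasDerivAt (fun τ => gg τ x) (kk 2 t x) t := by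
  unfold gg kk pp
  have hp : 4 * Real.pi * t ≠ 0 := by positivity
  have hp' : 0 < 4 * Real.pi * t := by positivity
  have h1 : HasDerivAt (fun τ : ℝ => √(4 * Real.pi * τ)) ((4 * Real.pi) / (2 * √(4 * Real.pi * t))) t := by
    have := ((hasDerivAt_id t).const_mul (4 * Real.pi)).sqrt hp
    simpa using this
  have h2 := h1.inv (by positivity : √(4 * Real.pi * t) ≠ 0)
  have h3 : HasDerivAt (fun τ : ℝ => -(x ^ 2 / (4 * τ))) (x ^ 2 / (4 * t ^ 2)) t := by
    have h4 : HasDerivAt (fun τ : ℝ => (4 * τ)) 4 t := by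
      simpa using (hasDerivAt_id t).const_mul 4
    have h5 := ((hasDerivAt_const t (x ^ 2)).div h4 (by positivity : (4 * t) ≠ 0)).neg
    refine h5.congr_deriv ?_
    field_simp
    ring
  have h6 := h2.mul h3.exp
  refine h6.congr_deriv ?_
  simp only [gg, Pi.inv_apply]
  have hs : √(4 * Real.pi * t) ^ 2 = 4 * Real.pi * t := Real.sq_sqrt hp'.le
  have hs0 : √(4 * Real.pi * t) ≠ 0 := by positivity
  have h7 : -(4 * Real.pi / (2 * √(4 * Real.pi * t))) / √(4 * Real.pi * t) ^ 2 =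
      -(1 / (2 * t)) * (√(4 * Real.pi * t))⁻¹ := by
    rw [hs]
    field_simp
  rw [h7]
  ring

/-! ### `L¹` norms -/

theorem gg_tendsto_top {t : ℝ} (ht : 0 < t) : Tendsto (gg t) atTop (𝓝 0) := by
  have h := tendsto_zero_of_hasDerivAt_of_integrableOn_Ioi (a := 0) (fun x _ => gg_hx ht x)
    (kk_int 1 ht).integrableOn ?_
  · exact h
  · have := kk_int 0 ht
    unfold kk pp at this
    simp only [one_mul] at this
    exact this.integrableOn

theorem gg_int' {t : ℝ} (ht : 0 < t) : Integrable (gg t) := by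
  have := kk_int 0 ht
  unfold kk pp at this
  simpa only [one_mul] using this

theorem gg_zero_le {t : ℝ} (ht : 0 < t) : 2 * gg t 0 ≤ 1 / √t := by
  unfold gg
  have h1 : √(4 * Real.pi * t) = 2 * √Real.pi * √t := by
    rw [show 4 * Real.pi * t = (2 ^ 2 * Real.pi) * t by ring, Real.sqrt_mul (by positivity),
      Real.sqrt_mul (by positivity), Real.sqrt_sq (by norm_num)]
  rw [h1]
  have h2 : 1 ≤ √Real.pi := by
    rw [Real.one_le_sqrt]; linarith [Real.pi_gt_three]
  have h3 : 0 < √t := by positivity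
  simp only [ne_eq, OfNat.ofNat_ne_zero, not_false_eq_true, zero_pow, zero_div, neg_zero,
    Real.exp_zero, mul_one]
  rw [mul_inv, mul_inv]
  have h4 : (√Real.pi)⁻¹ ≤ 1 := inv_le_one_of_one_le₀ h2
  calc 2 * (2⁻¹ * (√Real.pi)⁻¹ * (√t)⁻¹) = (√Real.pi)⁻¹ * (√t)⁻¹ := by ring
    _ ≤ 1 * (√t)⁻¹ := by gcongr
    _ = _ := by ring

theorem kk1_l1 {t : ℝ} (ht : 0 < t) : ∫ x, |kk 1 t x| ≤ 1 / √t := by
  have h1 : ∀ x, |kk 1 t x| = (fun y => -kk 1 t y) |x| := by
    intro x
    simp only [kk, pp]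
    have hg : gg t |x| = gg t x := by unfold gg; rw [sq_abs]
    rw [hg, abs_mul, abs_of_pos (gg_pos ht x), abs_neg, abs_div, abs_of_pos (by positivity : 0 < 2 * t)]
    ring
  have h2 : ∫ x, |kk 1 t x| = ∫ x, (fun y => -kk 1 t y) |x| := by
    congr 1
    funext x
    exact h1 x
  rw [h2, integral_comp_abs (f := fun y => -kk 1 t y), integral_neg, integral_Ioi_of_hasDerivAt_of_tendsto'
    (fun x _ => gg_hx ht x) (kk_int 1 ht).integrableOn (gg_tendsto_top ht)]
  have := gg_zero_le ht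
  linarith

theorem kk2_l1 (h1 : T_GG1) {t : ℝ} (ht : 0 < t) : ∫ x, |kk 2 t x| ≤ 1 / t := by
  have hz : ∫ x, kk 2 t x = 0 := integral_eq_zero_of_hasDerivAt_of_integrable
    (fun x => kk1_hx ht x) (kk_int 2 ht) (kk_int 1 ht)
  have hg1 : ∫ x, gg t x = 1 := (h1.int t ht).2
  have hgi := gg_int' ht
  have h2 : ∀ x, |kk 2 t x| ≤ kk 2 t x + 1 / t * gg t x := by
    intro x
    have hgp := gg_pos ht x
    simp only [kk, pp]
    rw [abs_mul, abs_of_pos hgp]
    have h3 : |x ^ 2 / (4 * t ^ 2) - 1 / (2 * t)| ≤ x ^ 2 / (4 * t ^ 2) + 1 / (2 * t) := by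
      have h4 : 0 ≤ x ^ 2 / (4 * t ^ 2) := by positivity
      have h5 : 0 < 1 / (2 * t) := by positivity
      rw [abs_le]
      constructor <;> linarith
    calc _ ≤ (x ^ 2 / (4 * t ^ 2) + 1 / (2 * t)) * gg t x := mul_le_mul_of_nonneg_right h3 hgp.le
      _ = _ := by field_simp; ring
  calc ∫ x, |kk 2 t x| ≤ ∫ x, (kk 2 t x + 1 / t * gg t x) :=
        integral_mono (kk_int 2 ht).abs ((kk_int 2 ht).add (hgi.const_mul _)) h2
    _ = 1 / t := by
        rw [integral_add (kk_int 2 ht) (hgi.const_mul _), integral_const_mul, hz, hg1]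
        ring

/-- the bound of the convolution by the `L¹` norm of the kernel -/
theorem Gi_bd (i : Fin 3) {t : ℝ} (ht : 0 < t) {g : ℝ → ℝ} {M : ℝ} (hg : Measurable g)
    (hM : ∀ x, |g x| ≤ M) (s : ℝ) : |Gi i t g s| ≤ M * ∫ x, |kk i t x| := by
  unfold Gi
  have h1 : ∫ r, |kk i t (s - r)| = ∫ x, |kk i t x| :=
    integral_sub_left_eq_self (fun x => |kk i t x|) volume s
  rw [← h1, ← integral_const_mul, ← Real.norm_eq_abs]
  refine (norm_integral_le_integral_norm _).trans ?_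
  refine integral_mono (Gi_int i ht hg hM s).norm
    ((kk_int_shift i ht s).abs.const_mul M) fun r => ?_
  simp only [Real.norm_eq_abs]
  rw [abs_mul, mul_comm]
  exact mul_le_mul_of_nonneg_right (hM r) (abs_nonneg _)

theorem Gi1_bd {t : ℝ} (ht : 0 < t) {g : ℝ → ℝ} {M : ℝ} (hg : Measurable g)
    (hM : ∀ x, |g x| ≤ M) (s : ℝ) : |Gi 1 t g s| ≤ M / √t := by
  have hM0 : 0 ≤ M := (abs_nonneg _).trans (hM 0)
  refine (Gi_bd 1 ht hg hM s).trans ?_
  calc M * ∫ x, |kk 1 t x| ≤ M * (1 / √t) := mul_le_mul_of_nonneg_left (kk1_l1 ht) hM0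
    _ = _ := by ring

theorem Gi2_bd (h1 : T_GG1) {t : ℝ} (ht : 0 < t) {g : ℝ → ℝ} {M : ℝ} (hg : Measurable g)
    (hM : ∀ x, |g x| ≤ M) (s : ℝ) : |Gi 2 t g s| ≤ M / t := by
  have hM0 : 0 ≤ M := (abs_nonneg _).trans (hM 0)
  refine (Gi_bd 2 ht hg hM s).trans ?_
  calc M * ∫ x, |kk 2 t x| ≤ M * (1 / t) := mul_le_mul_of_nonneg_left (kk2_l1 h1 ht) hM0
    _ = _ := by ring

/-! ### derivatives of the convolutions -/

theorem Gi_hs {i j : Fin 3} {t : ℝ} (ht : 0 < t) (hij : ∀ x, HasDerivAt (kk i t) (kk j t x) x)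
    {g : ℝ → ℝ} {M : ℝ} (hg : Measurable g) (hM : ∀ x, |g x| ≤ M) (s : ℝ) :
    HasDerivAt (Gi i t g) (Gi j t g s) s := by
  obtain ⟨C, c, hC, hc0, hd⟩ := dom (R := |s| + 1) ht le_rfl
  have hM0 : 0 ≤ M := (abs_nonneg _).trans (hM 0)
  unfold Gi
  refine (hasDerivAt_integral_of_dominated_loc_of_deriv_le (s := Metric.ball s 1)
    (F := fun s r => kk i t (s - r) * g r) (F' := fun s r => kk j t (s - r) * g r)
    (bound := fun r => M * (C * Real.exp (-c * r ^ 2)))
    (Metric.ball_mem_nhds s one_pos) ?_ (Gi_int i ht hg hM s)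
    (Gi_int j ht hg hM s).aestronglyMeasurable ?_ (((gauss_int hc0).const_mul C).const_mul M) ?_).2
  · exact Eventually.of_forall fun z => (Gi_int i ht hg hM z).aestronglyMeasurable
  · refine Eventually.of_forall fun r z hz => ?_
    rw [Real.norm_eq_abs, abs_mul, mul_comm]
    refine mul_le_mul (hM _) (hd j t ⟨le_rfl, le_rfl⟩ z ?_ r) (abs_nonneg _) hM0
    rw [Metric.mem_ball, Real.dist_eq] at hz
    have := abs_sub_abs_le_abs_sub z s
    linarith
  · refine Eventually.of_forall fun r z _ => ?_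
    exact ((hij (z - r)).comp_sub_const z r).mul_const (g r)

theorem Gi_ht {t : ℝ} (ht : 0 < t) {g : ℝ → ℝ} {M : ℝ} (hg : Measurable g)
    (hM : ∀ x, |g x| ≤ M) (s : ℝ) : HasDerivAt (fun τ => GG τ g s) (Gi 2 t g s) t := by
  obtain ⟨C, c, hC, hc0, hd⟩ := dom (R := |s|) (by positivity : 0 < t / 2)
    (by linarith : t / 2 ≤ 2 * t)
  have hM0 : 0 ≤ M := (abs_nonneg _).trans (hM 0)
  have hI : ∀ τ, 0 < τ → Integrable fun r => gg τ (s - r) * g r := by
    intro τ hτ
    have := Gi_int 0 hτ hg hM s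
    unfold kk pp at this
    simpa only [one_mul] using this
  unfold GG Gi
  refine (hasDerivAt_integral_of_dominated_loc_of_deriv_le (s := Ioo (t / 2) (2 * t))
    (F := fun τ r => gg τ (s - r) * g r) (F' := fun τ r => kk 2 τ (s - r) * g r)
    (bound := fun r => M * (C * Real.exp (-c * r ^ 2)))
    (Ioo_mem_nhds (by linarith) (by linarith)) ?_ (hI t ht)
    (Gi_int 2 ht hg hM s).aestronglyMeasurable ?_ (((gauss_int hc0).const_mul C).const_mul M) ?_).2
  · filter_upwards [Ioi_mem_nhds ht] with z hz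
    exact (hI z hz).aestronglyMeasurable
  · refine Eventually.of_forall fun r z hz => ?_
    rw [Real.norm_eq_abs, abs_mul, mul_comm]
    exact mul_le_mul (hM _) (hd 2 z ⟨hz.1.le, hz.2.le⟩ s le_rfl r) (abs_nonneg _) hM0
  · refine Eventually.of_forall fun r z hz => ?_
    exact (gg_ht (by linarith [hz.1] : 0 < z) (s - r)).mul_const (g r)

theorem GG_eq (t : ℝ) (g : ℝ → ℝ) : GG t g = Gi 0 t g := by
  funext s
  rw [Gi_zero]

theorem kk0 (t : ℝ) : kk 0 t = gg t := by
  funext x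
  unfold kk pp
  exact one_mul _

theorem dGG {t : ℝ} (ht : 0 < t) {g : ℝ → ℝ} {M : ℝ} (hg : Measurable g) (hM : ∀ x, |g x| ≤ M) :
    deriv (GG t g) = Gi 1 t g ∧ deriv (deriv (GG t g)) = Gi 2 t g ∧
    (∀ s, HasDerivAt (GG t g) (Gi 1 t g s) s) ∧ ∀ s, HasDerivAt (Gi 1 t g) (Gi 2 t g s) s := by
  have e0 : ∀ s, HasDerivAt (GG t g) (Gi 1 t g s) s := by
    intro s
    rw [GG_eq]
    exact Gi_hs ht (fun x => by rw [kk0]; exact gg_hx ht x) hg hM s
  have e1 : ∀ s, HasDerivAt (Gi 1 t g) (Gi 2 t g s) s := fun s =>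
    Gi_hs ht (fun x => kk1_hx ht x) hg hM s
  have e2 : deriv (GG t g) = Gi 1 t g := by funext s; exact (e0 s).deriv
  refine ⟨e2, ?_, e0, e1⟩
  rw [e2]
  funext s
  exact (e1 s).deriv

theorem Gi_cont_s (i : Fin 3) {t : ℝ} (ht : 0 < t) {g : ℝ → ℝ} {M : ℝ} (hg : Measurable g)
    (hM : ∀ x, |g x| ≤ M) : Continuous (Gi i t g) := by
  rw [continuous_iff_continuousAt]
  intro s
  exact ContinuousAt.comp (f := fun s : ℝ => ((t, 0, s) : ℝ × ℝ × ℝ))
    (g := fun z : ℝ × ℝ × ℝ => Gi i z.1 ((fun _ : ℝ => g) z.2.1) z.2.2)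
    (Gi_cont i (fun _ => hg) (fun _ => hM) (fun _ => continuous_const) ht 0 s) (by fun_prop)

theorem c2_of {f f1 f2 : ℝ → ℝ} (h0 : ∀ s, HasDerivAt f (f1 s) s) (h1 : ∀ s, HasDerivAt f1 (f2 s) s)
    (h2 : Continuous f2) : ContDiff ℝ 2 f := by
  have e1 : deriv f = f1 := by funext s; exact (h0 s).deriv
  have e2 : deriv f1 = f2 := by funext s; exact (h1 s).deriv
  have h3 : ContDiff ℝ 1 f1 := by
    rw [contDiff_one_iff_deriv, e2]
    exact ⟨fun s => (h1 s).differentiableAt, h2⟩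
  rw [show (2 : WithTop ℕ∞) = 1 + 1 by norm_num, contDiff_succ_iff_deriv, e1]
  exact ⟨fun s => (h0 s).differentiableAt, by simp, h3⟩

/-- translation -/
theorem Gi_shift (i : Fin 3) (t : ℝ) (g : ℝ → ℝ) (s h : ℝ) :
    Gi i t g (s + h) = Gi i t (fun x => g (x + h)) s := by
  unfold Gi
  rw [← integral_add_right_eq_self (fun r => kk i t (s + h - r) * g r) h]
  congr 1
  funext r
  congr 2
  ring

theorem Gi_lip (i : Fin 3) {t : ℝ} (ht : 0 < t) {g : ℝ → ℝ} {M L : ℝ} (hg : Measurable g)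
    (hM : ∀ x, |g x| ≤ M) (hL : ∀ x y, |g x - g y| ≤ L * |x - y|) (s h : ℝ) :
    |Gi i t g (s + h) - Gi i t g s| ≤ L * |h| * ∫ x, |kk i t x| := by
  have hgs : Measurable fun x => g (x + h) := hg.comp (measurable_id.add_const h)
  have e : Gi i t g (s + h) - Gi i t g s = Gi i t (fun x => g (x + h) - g x) s := by
    rw [Gi_shift]
    unfold Gi
    rw [← integral_sub (Gi_int i ht hgs (fun x => hM _) s) (Gi_int i ht hg hM s)]
    congr 1
    funext r
    ring
  rw [e]
  refine Gi_bd i ht (hgs.sub hg) (fun x => ?_) s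
  have := hL (x + h) x
  rwa [add_sub_cancel_left] at this

theorem deriv_le_of_lip {f : ℝ → ℝ} {f' C : ℝ} {s : ℝ} (hf : HasDerivAt f f' s)
    (h : ∀ h : ℝ, |f (s + h) - f s| ≤ C * |h|) : |f'| ≤ C := by
  have hC : 0 ≤ C := by
    have := h 1
    rw [abs_one, mul_one] at this
    exact (abs_nonneg _).trans this
  have := hf.le_of_lip' hC (Eventually.of_forall fun x => by
    have := h (x - s)
    rw [add_sub_cancel] at this
    exact this)
  exact this

/-- module GG2 -/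
theorem gg2 (h1 : T_GG1) : T_GG2 where
  cont := by
    intro g M hg hM
    have hj : ∀ i : Fin 3, ContinuousOn (fun z : ℝ × ℝ => Gi i z.1 g z.2) (Ioi 0 ×ˢ univ) := by
      intro i z hz
      have ht : 0 < z.1 := hz.1
      exact (ContinuousAt.comp (f := fun z : ℝ × ℝ => ((z.1, 0, z.2) : ℝ × ℝ × ℝ))
        (g := fun z : ℝ × ℝ × ℝ => Gi i z.1 ((fun _ : ℝ => g) z.2.1) z.2.2)
        (Gi_cont i (fun _ => hg) (fun _ => hM) (fun _ => continuous_const) ht 0 z.2)
        (by fun_prop)).continuousWithinAt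
    refine ⟨?_, ?_, ?_⟩
    · exact (hj 0).congr fun z _ => (Gi_zero _ _ _).symm
    · refine (hj 1).congr fun z hz => ?_
      rw [(dGG (hz.1 : 0 < z.1) hg hM).1]
    · refine (hj 2).congr fun z hz => ?_
      rw [(dGG (hz.1 : 0 < z.1) hg hM).2.1]
  c2 := by
    intro t ht g M hg hM
    obtain ⟨e1, e2, e3, e4⟩ := dGG ht hg hM
    refine ⟨c2_of e3 e4 (Gi_cont_s 2 ht hg hM), fun s => ⟨?_, ?_, ?_⟩⟩
    · rw [e2]; exact Gi_ht ht hg hM s
    · rw [e1]; exact Gi1_bd ht hg hM s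
    · rw [e2]; exact Gi2_bd h1 ht hg hM s
  lip := by
    intro t ht g M L hg hM hL s
    obtain ⟨e1, e2, e3, e4⟩ := dGG ht hg hM
    have hL0 : 0 ≤ L := by
      have := hL 1 0
      rw [sub_zero, abs_one, mul_one] at this
      exact (abs_nonneg _).trans this
    constructor
    · rw [e1]
      refine deriv_le_of_lip (e3 s) fun h => ?_
      rw [GG_eq]
      refine (Gi_lip 0 ht hg hM hL s h).trans (le_of_eq ?_)
      have : ∫ x, |kk 0 t x| = 1 := by
        rw [kk0, ← (h1.int t ht).2]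
        congr 1
        funext x
        exact abs_of_pos (gg_pos ht x)
      rw [this, mul_one]
    · rw [e2]
      refine deriv_le_of_lip (e4 s) fun h => ?_
      refine (Gi_lip 1 ht hg hM hL s h).trans ?_
      calc L * |h| * ∫ x, |kk 1 t x| ≤ L * |h| * (1 / √t) :=
            mul_le_mul_of_nonneg_left (kk1_l1 ht) (by positivity)
        _ = _ := by ring

end Pool.Agent.H33.HK
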