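import Pool.Agent.H33.HK.APP

/-!
# MP_e94f6f_an, module KPOS: positivity and the Gaussian bound of the kernel
-/

set_option autoImplicit false

open MeasureTheory Set Filter Topology
open scoped ContDiff Interval

namespace Pool.Agent.H33.HK.KPOS

open Pool.Agent.H96.HK Pool.Agent.H33.HK Pool.Agent.H33.HK.APP

/-- testing with nonnegative functions -/
theorem test {f : ℝ → ℝ} (hf : Continuous f)
    (h : ∀ a : ℝ → ℝ, Continuous a → HasCompactSupport a → (∀ x, 0 ≤ a x) → 0 ≤ ∫ x, f x * a x)
    (r : ℝ) : 0 ≤ f r := by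
  by_contra hcon
  push Not at hcon
  set a : ℝ → ℝ := fun x => max 0 (-f x) * max 0 (1 - |x - r|) with ha
  have hac : Continuous a := by
    simp only [ha]
    fun_prop
  have hacs : HasCompactSupport a := by
    refine HasCompactSupport.of_support_subset_isCompact (isCompact_closedBall r 1) ?_
    intro x hx
    rw [Metric.mem_closedBall, Real.dist_eq]
    by_contra h1
    push Not at h1
    apply hx
    simp only [ha]
    rw [max_eq_left (by linarith : 1 - |x - r| ≤ 0), mul_zero]
  have ha0 : ∀ x, 0 ≤ a x := fun x => mul_nonneg (le_max_left _ _) (le_max_left _ _)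
  have h1 := h a hac hacs ha0
  set b : ℝ → ℝ := fun x => -(f x * a x) with hb
  have hbc : Continuous b := (hf.mul hac).neg
  have hbcs : HasCompactSupport b := by
    refine hacs.mono ?_
    intro x hx
    rw [Function.mem_support] at hx ⊢
    intro h2
    apply hx
    simp only [hb]
    rw [h2, mul_zero, neg_zero]
  have hb0 : 0 ≤ b := by
    intro x
    simp only [hb, ha, Pi.zero_apply]
    rcases le_total 0 (f x) with h2 | h2
    · rw [max_eq_left (by linarith : -f x ≤ 0)]; simp
    · rw [max_eq_right (by linarith : 0 ≤ -f x)]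
      have h3 : 0 ≤ max 0 (1 - |x - r|) := le_max_left _ _
      have h4 : -(f x * (-f x * max 0 (1 - |x - r|))) = f x ^ 2 * max 0 (1 - |x - r|) := by ring
      rw [h4]
      positivity
  have hbr : b r ≠ 0 := by
    intro h3
    simp only [hb, ha, sub_self, abs_zero, sub_zero] at h3
    rw [max_eq_right (by linarith : 0 ≤ -f r), max_eq_right zero_le_one, mul_one] at h3
    have h4 : f r ^ 2 = 0 := by linarith
    have h5 : f r = 0 := by simpa using h4
    linarith
  have h6 : 0 < ∫ x, b x := hbc.integral_pos_of_hasCompactSupport_nonneg_nonzero hbcs hb0 hbr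
  simp only [hb] at h6
  rw [integral_neg] at h6
  linarith

theorem K_cont {V : ℝ → ℝ} {B : ℝ} {K : ℝ → ℝ → ℝ → ℝ} (hK : Ker V B K) {t : ℝ} (ht : 0 < t)
    (s : ℝ) : Continuous (K t s) :=
  hK.cont.comp_continuous (by fun_prop : Continuous fun r : ℝ => ((t, s, r) : ℝ × ℝ × ℝ))
    fun _ => ⟨ht, mem_univ _⟩

theorem gg_cont1 {t : ℝ} (ht : 0 < t) : Continuous (gg t) := by
  rw [← kk0]; exact kk_cont1 0 ht

theorem dd_neg (f : ℝ → ℝ) (s : ℝ) : deriv (deriv fun x => -f x) s = -deriv (deriv f) s := by
  have : deriv (fun x => -f x) = fun x => -deriv f x := by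
    funext x
    exact deriv.fun_neg
  rw [this]
  exact deriv.fun_neg

theorem kpos (h1 : T_GG1) (hAPP : T_APP) (hCM1 : T_CM1) : T_KPOS := by
  intro V B L C K hB hVB hVC hVL hK t ht s
  have hgg2 := gg2 h1
  have hcontK := K_cont hK ht s
  have hAP := hAPP V B L K hB hVB hVL hK
  have hBV : ∀ s, -B ≤ V s := fun s => (abs_le.1 (hVB s)).1
  have h0t : 0 < t + 1 := by linarith
  have hI : ∀ a : ℝ → ℝ, Continuous a → HasCompactSupport a → ∀ f : ℝ → ℝ, Continuous f →
      Integrable fun r => f r * a r := by
    intro a ha hcs f hf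
    exact (hf.mul ha).integrable_of_hasCompactSupport hcs.mul_left
  -- positivity
  have hpos : ∀ a : ℝ → ℝ, Continuous a → HasCompactSupport a → (∀ x, 0 ≤ a x) →
      0 ≤ ∫ r, K t s r * a r := by
    intro a ha hcs ha0
    obtain ⟨c1, c2, c3⟩ := hAP a ha hcs
    obtain ⟨d1, d2, -, -, -⟩ := c2 (t + 1)
    have := hCM1 V B 0 t (fun t s => -app K a t s) hBV ht ?_ ?_ ?_ ?_ t ⟨ht.le, le_rfl⟩ s
    · rw [app_pos ht] at this
      linarith
    · exact (c1.mono (prod_mono_left Icc_subset_Ici_self)).neg
    · intro ε hε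
      obtain ⟨R, hR⟩ := c3 t ht ε hε
      exact ⟨R, fun τ hτ x hx => (neg_le_abs _).trans (hR τ hτ x hx)⟩
    · intro x
      unfold app
      rw [if_pos le_rfl]
      linarith [ha0 x]
    · intro τ hτ x _
      have hτ' : τ ∈ Ioo 0 (t + 1) := ⟨hτ.1, by linarith [hτ.2]⟩
      refine ⟨(d1 τ hτ').neg.contDiffAt, _, (d2 τ hτ' x).fun_neg, ?_⟩
      rw [dd_neg]
      apply le_of_eq
      ring
  -- the Gaussian bound
  have hup : ∀ a : ℝ → ℝ, Continuous a → HasCompactSupport a → (∀ x, 0 ≤ a x) →
      ∫ r, K t s r * a r ≤ Real.exp (C * t) * GG t a s := by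
    intro a ha hcs ha0
    obtain ⟨M, hM0, hM⟩ := cs_bdd ha hcs
    have ham := ha.measurable
    obtain ⟨c1, c2, c3⟩ := hAP a ha hcs
    obtain ⟨d1, d2, -, -, -⟩ := c2 (t + 1)
    have hGHc : Continuous fun z : ℝ × ℝ => GH z.1 a z.2 := by
      have h3 := GH_cont (g := fun _ : ℝ => a) (M := M) (ha.comp continuous_snd) (fun _ => hM)
      exact h3.comp (by fun_prop : Continuous fun z : ℝ × ℝ => ((z.1, 0, z.2) : ℝ × ℝ × ℝ))
    have hGH0 : ∀ τ x, 0 ≤ GH τ a x := by
      intro τ x
      unfold GH
      exact integral_nonneg fun y => mul_nonneg (gg_pos one_pos y).le (ha0 _)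
    have := hCM1 V B 0 t (fun t s => app K a t s - Real.exp (C * t) * GH t a s) hBV ht ?_ ?_ ?_ ?_ t
      ⟨ht.le, le_rfl⟩ s
    · rw [app_pos ht, GH_pos ht] at this
      linarith
    · refine (c1.mono (prod_mono_left Icc_subset_Ici_self)).sub (Continuous.continuousOn ?_)
      exact (Real.continuous_exp.comp (by fun_prop)).mul hGHc
    · intro ε hε
      obtain ⟨R, hR⟩ := c3 t ht ε hε
      refine ⟨R, fun τ hτ x hx => ?_⟩
      have h4 := (le_abs_self _).trans (hR τ hτ x hx)
      have h5 := mul_nonneg (Real.exp_pos (C * τ)).le (hGH0 τ x)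
      linarith
    · intro x
      unfold app
      rw [if_pos le_rfl, mul_zero, Real.exp_zero, GH_zero h1]
      linarith
    · intro τ hτ x _
      have hτ' : τ ∈ Ioo 0 (t + 1) := ⟨hτ.1, by linarith [hτ.2]⟩
      obtain ⟨e1, e2⟩ := hgg2.c2 τ hτ.1 a M ham hM
      obtain ⟨f1, -, -⟩ := e2 x
      have hGe : GH τ a = GG τ a := by funext y; exact GH_pos hτ.1 a y
      have hct : ContDiff ℝ 2 (fun s => app K a τ s - Real.exp (C * τ) * GH τ a s) := by
        rw [hGe]
        exact (d1 τ hτ').sub (contDiff_const.mul e1)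
      have hGt : HasDerivAt (fun τ => GH τ a x) (deriv (deriv (GG τ a)) x) τ := by
        refine f1.congr_of_eventuallyEq ?_
        filter_upwards [Ioi_mem_nhds hτ.1] with r hr
        exact GH_pos hr a x
      have hEt : HasDerivAt (fun τ => Real.exp (C * τ)) (C * Real.exp (C * τ)) τ := by
        have h6 : HasDerivAt (fun τ : ℝ => C * τ) C τ := by
          simpa using (hasDerivAt_id τ).const_mul C
        have := h6.exp
        rwa [mul_comm] at this
      refine ⟨hct.contDiffAt, _, (d2 τ hτ' x).sub (hEt.mul hGt), ?_⟩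
      have hA2 : ContDiff ℝ 2 (app K a τ) := d1 τ hτ'
      have hdd : deriv (deriv fun s => app K a τ s - Real.exp (C * τ) * GH τ a s) x =
          deriv (deriv (app K a τ)) x - Real.exp (C * τ) * deriv (deriv (GG τ a)) x := by
        rw [hGe]
        have hda : Differentiable ℝ (app K a τ) := hA2.differentiable (by norm_num)
        have hdG : Differentiable ℝ (GG τ a) := e1.differentiable (by norm_num)
        have hda' : Differentiable ℝ (deriv (app K a τ)) :=
          (((contDiff_succ_iff_deriv (n := 1)).1 (by rw [one_add_one_eq_two]; exact hA2)).2.2).differentiable (by norm_num)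
        have hdG' : Differentiable ℝ (deriv (GG τ a)) :=
          (((contDiff_succ_iff_deriv (n := 1)).1 (by rw [one_add_one_eq_two]; exact e1)).2.2).differentiable (by norm_num)
        have h7 : deriv (fun s => app K a τ s - Real.exp (C * τ) * GG τ a s) =
            fun s => deriv (app K a τ) s - Real.exp (C * τ) * deriv (GG τ a) s := by
          funext y
          rw [deriv_fun_sub (hda y) ((hdG y).const_mul _), deriv_const_mul _ (hdG y)]
        rw [h7, deriv_fun_sub (hda' x) ((hdG' x).const_mul _), deriv_const_mul _ (hdG' x)]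
      rw [hdd]
      have h8 : GH τ a x = GG τ a x := GH_pos hτ.1 a x
      rw [h8]
      have h9 : 0 ≤ (V x + C) * (Real.exp (C * τ) * GG τ a x) := by
        refine mul_nonneg (by linarith [hVC x]) (mul_nonneg (Real.exp_pos _).le ?_)
        rw [← h8]; exact hGH0 τ x
      nlinarith
  intro r
  constructor
  · exact test hcontK hpos r
  · have hgc : Continuous fun r => gg t (s - r) := (gg_cont1 ht).comp (by fun_prop)
    have h2 := test (f := fun r => Real.exp (C * t) * gg t (s - r) - K t s r)
      ((continuous_const.mul hgc).sub hcontK) ?_ r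
    · linarith
    · intro a ha hcs ha0
      have h3 := hup a ha hcs ha0
      have h4 : ∫ x, (Real.exp (C * t) * gg t (s - x) - K t s x) * a x =
          Real.exp (C * t) * GG t a s - ∫ x, K t s x * a x := by
        unfold GG
        rw [← integral_const_mul, ← integral_sub ?_ (hI a ha hcs _ hcontK)]
        · congr 1
          funext x
          ring
        · exact (hI a ha hcs _ hgc).const_mul _
      rw [h4]
      linarith

end Pool.Agent.H33.HK.KPOS
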