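import Pool.Agent.H33.HK.DUH

/-!
# MP_e94f6f_an, module MC: bounded mild solutions are classical, with estimates
-/

set_option autoImplicit false

open MeasureTheory Set Filter Topology
open scoped ContDiff Interval

namespace Pool.Agent.H33.HK

open Pool.Agent.H96.HK

theorem V_cont {V : ℝ → ℝ} {L : ℝ} (hVL : ∀ s r, |V s - V r| ≤ L * |s - r|) : Continuous V := by
  have hL0 : 0 ≤ L := by
    have := hVL 1 0
    rw [sub_zero, abs_one, mul_one] at this
    exact (abs_nonneg _).trans this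
  have : LipschitzWith ⟨L, hL0⟩ V := by
    refine LipschitzWith.of_dist_le_mul fun x y => ?_
    rw [Real.dist_eq, Real.dist_eq]
    exact hVL x y
  exact this.continuous

theorem lip_of_deriv {f f' : ℝ → ℝ} {C : ℝ} (hf : ∀ s, HasDerivAt f (f' s) s)
    (hb : ∀ s, |f' s| ≤ C) (x y : ℝ) : |f x - f y| ≤ C * |x - y| := by
  have := Convex.norm_image_sub_le_of_norm_hasDerivWithin_le (s := univ) (C := C)
    (fun s _ => (hf s).hasDerivWithinAt) (fun s _ => by rw [Real.norm_eq_abs]; exact hb s)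
    convex_univ (mem_univ y) (mem_univ x)
  simpa [Real.norm_eq_abs] using this

section loc

variable {V : ℝ → ℝ} {B L a b M : ℝ} {v : ℝ → ℝ → ℝ}

/-- the right side, shifted and clamped -/
noncomputable def gv (V : ℝ → ℝ) (v : ℝ → ℝ → ℝ) (τ0 T0 τ x : ℝ) : ℝ :=
  -(V x * v (τ0 + max 0 (min τ T0)) x)

variable (h1 : T_GG1) (hVB : ∀ s, |V s| ≤ B) (hVL : ∀ s r, |V s - V r| ≤ L * |s - r|)
  (hv : Mild1 V a v) (hM : ∀ t ∈ Ioo a b, ∀ s, |v t s| ≤ M)

include hVL hv in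
theorem gv_cont {τ0 T0 : ℝ} (h0 : a < τ0) : Continuous fun z : ℝ × ℝ => gv V v τ0 T0 z.1 z.2 := by
  unfold gv
  refine Continuous.neg (((V_cont hVL).comp continuous_snd).mul ?_)
  have h2 : Continuous fun z : ℝ × ℝ => ((τ0 + max 0 (min z.1 T0), z.2) : ℝ × ℝ) := by fun_prop
  refine hv.cont.comp_continuous h2 fun z => ⟨?_, mem_univ _⟩
  have := le_max_left 0 (min z.1 T0)
  simp only [mem_Ioi]
  linarith

theorem clamp {T0 : ℝ} (hT : 0 < T0) (τ : ℝ) : max 0 (min τ T0) ∈ Icc 0 T0 :=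
  ⟨le_max_left _ _, max_le hT.le (min_le_right _ _)⟩

include hVB hM in
theorem gv_bd {τ0 T0 : ℝ} (h0 : a < τ0) (hT : 0 < T0) (hb : τ0 + T0 < b) (τ x : ℝ) :
    |gv V v τ0 T0 τ x| ≤ B * M := by
  unfold gv
  rw [abs_neg, abs_mul]
  have h2 := clamp hT τ
  exact mul_le_mul (hVB x) (hM _ ⟨by linarith [h2.1], by linarith [h2.2]⟩ x) (abs_nonneg _)
    ((abs_nonneg _).trans (hVB x))

theorem vm (hv : Mild1 V a v) {τ : ℝ} (h0 : a < τ) : Measurable (v τ) := by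
  have h2 : Continuous fun x : ℝ => ((τ, x) : ℝ × ℝ) := by fun_prop
  exact (hv.cont.comp_continuous h2 fun z => ⟨h0, mem_univ _⟩).measurable

include hv in
/-- the mild formula, shifted -/
theorem shift {τ0 T0 : ℝ} (h0 : a < τ0) {t : ℝ} (ht : t ∈ Ioc 0 T0) (s : ℝ) :
    v (τ0 + t) s = GG t (v τ0) s + DD (gv V v τ0 T0) t s := by
  rw [hv.duh τ0 (τ0 + t) h0 (by linarith [ht.1]) s]
  rw [add_sub_cancel_left, sub_eq_add_neg, ← intervalIntegral.integral_neg]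
  congr 1
  unfold DD
  have h2 := intervalIntegral.integral_comp_add_left (a := 0) (b := t)
    (fun r => -GG (τ0 + t - r) (fun x => V x * v r x) s) τ0
  rw [add_zero] at h2
  rw [← h2]
  refine intervalIntegral.integral_congr fun τ hτ => ?_
  rw [uIcc_of_le ht.1.le] at hτ
  have e1 : τ0 + t - (τ0 + τ) = t - τ := by ring
  rw [e1]
  unfold GG
  rw [← integral_neg]
  congr 1
  funext r
  unfold gv
  rw [min_eq_left (hτ.2.trans ht.2), max_eq_right hτ.1]
  ring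

include hVB hVL hv hM in
/-- first derivative -/
theorem loc1 {τ0 T0 : ℝ} (h0 : a < τ0) (hT : 0 < T0) (hb : τ0 + T0 < b) {t : ℝ}
    (ht : t ∈ Ioc 0 T0) (s : ℝ) :
    HasDerivAt (v (τ0 + t)) (Gi 1 t (v τ0) s + D1 (gv V v τ0 T0) t s) s ∧
    |Gi 1 t (v τ0) s + D1 (gv V v τ0 T0) t s| ≤ M / √t + 2 * (B * M) * √t := by
  have hgc := gv_cont hVL hv (T0 := T0) h0
  have hgM := gv_bd hVB hM h0 hT hb
  have hvM : ∀ x, |v τ0 x| ≤ M := fun x => hM τ0 ⟨h0, by linarith⟩ x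
  constructor
  · have e : v (τ0 + t) = fun s => GG t (v τ0) s + DD (gv V v τ0 T0) t s := by
      funext s
      exact shift hv h0 ht s
    rw [e]
    exact ((dGG ht.1 (vm hv h0) hvM).2.2.1 s).add (DD_hs hgc hgM ht.1.le s)
  · refine (abs_add_le _ _).trans (add_le_add ?_ ?_)
    · exact Gi1_bd ht.1 (vm hv h0) hvM s
    · exact (weak_int (f_cont hgc hgM 1) (f1_bd hgc hgM) ht.1.le s).2

include hVB hVL hv hM in
/-- Lipschitz bound -/
theorem loc_lip {t δ : ℝ} (hδ : 0 < δ) (h0 : a < t - δ) (hb : t < b) (x y : ℝ) :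
    |v t x - v t y| ≤ (M / √δ + 2 * (B * M) * √δ) * |x - y| := by
  have h2 := fun s => loc1 hVB hVL hv hM h0 (T0 := δ) hδ (by linarith) (t := δ) ⟨hδ, le_rfl⟩ s
  simp only [sub_add_cancel] at h2
  exact lip_of_deriv (fun s => (h2 s).1) (fun s => (h2 s).2) x y

include hVB hVL hv hM in
theorem gv_lip {τ0 T0 δ : ℝ} (hδ : 0 < δ) (h0 : a < τ0 - δ) (hT : 0 < T0) (hb : τ0 + T0 < b)
    (τ x y : ℝ) : |gv V v τ0 T0 τ x - gv V v τ0 T0 τ y| ≤
      (L * M + B * (M / √δ + 2 * (B * M) * √δ)) * |x - y| := by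
  unfold gv
  have h2 := clamp hT τ
  set r := τ0 + max 0 (min τ T0) with hr
  have h3 : a < r - δ := by linarith [h2.1]
  have h4 : r < b := by linarith [h2.2]
  have h5 := loc_lip hVB hVL hv hM hδ h3 h4 x y
  have h6 : |v r y| ≤ M := hM r ⟨by linarith, h4⟩ y
  have e : -(V x * v r x) - -(V y * v r y) = -(V x * (v r x - v r y)) - (V x - V y) * v r y := by ring
  rw [e]
  have hB0 : 0 ≤ B := (abs_nonneg _).trans (hVB 0)
  have hM0 : 0 ≤ M := (abs_nonneg _).trans h6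
  calc |-(V x * (v r x - v r y)) - (V x - V y) * v r y|
      ≤ |V x * (v r x - v r y)| + |(V x - V y) * v r y| := by
        refine (abs_sub _ _).trans ?_
        rw [abs_neg]
    _ = |V x| * |v r x - v r y| + |V x - V y| * |v r y| := by rw [abs_mul, abs_mul]
    _ ≤ B * ((M / √δ + 2 * (B * M) * √δ) * |x - y|) + (L * |x - y|) * M := by
        refine add_le_add (mul_le_mul (hVB x) h5 (abs_nonneg _) hB0)
          (mul_le_mul (hVL x y) h6 (abs_nonneg _) ((abs_nonneg _).trans (hVL x y)))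
    _ = _ := by ring

end loc

/-- module MC -/
theorem mc (h1 : T_GG1) : T_MC := by
  refine ⟨10, by norm_num, ?_⟩
  intro V B L hB hL0 hVB hVL a b M v hab hv hM
  have hM0 : 0 ≤ M := (abs_nonneg _).trans (hM ((a + b) / 2) ⟨by linarith, by linarith⟩ 0)
  -- the local facts
  have hloc : ∀ τ0 T0 δ : ℝ, 0 < δ → a < τ0 - δ → 0 < T0 → τ0 + T0 < b → ∀ t ∈ Ioo 0 T0,
      (∀ s, HasDerivAt (v (τ0 + t)) (Gi 1 t (v τ0) s + D1 (gv V v τ0 T0) t s) s) ∧
      (∀ s, HasDerivAt (fun s => Gi 1 t (v τ0) s + D1 (gv V v τ0 T0) t s)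
        (Gi 2 t (v τ0) s + D2 (gv V v τ0 T0) t s) s) ∧
      (∀ s, HasDerivAt (fun t => v (τ0 + t) s)
        (Gi 2 t (v τ0) s + D2 (gv V v τ0 T0) t s - V s * v (τ0 + t) s) t) ∧
      (∀ s, ContinuousAt (fun z : ℝ × ℝ => Gi 1 z.1 (v τ0) z.2 + D1 (gv V v τ0 T0) z.1 z.2) (t, s)) ∧
      (∀ s, ContinuousAt (fun z : ℝ × ℝ => Gi 2 z.1 (v τ0) z.2 + D2 (gv V v τ0 T0) z.1 z.2) (t, s)) ∧
      (∀ s, |Gi 1 t (v τ0) s + D1 (gv V v τ0 T0) t s| ≤ M / √t + 2 * (B * M) * √t) ∧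
      (∀ s, |Gi 2 t (v τ0) s + D2 (gv V v τ0 T0) t s| ≤
        M / t + 2 * (L * M + B * (M / √δ + 2 * (B * M) * √δ)) * √t) := by
    intro τ0 T0 δ hδ h0δ hT hb t ht
    have h0 : a < τ0 := by linarith
    have htc : t ∈ Ioc 0 T0 := ⟨ht.1, ht.2.le⟩
    have hgc := gv_cont hVL hv (T0 := T0) h0
    have hgM := gv_bd hVB hM h0 hT hb
    have hgL := gv_lip hVB hVL hv hM hδ h0δ hT hb
    have hvM : ∀ x, |v τ0 x| ≤ M := fun x => hM τ0 ⟨h0, by linarith⟩ x
    have hvm := vm hv h0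
    have hGc : ∀ i s, ContinuousAt (fun z : ℝ × ℝ => Gi i z.1 (v τ0) z.2) (t, s) := fun i s =>
      ContinuousAt.comp (f := fun z : ℝ × ℝ => ((z.1, 0, z.2) : ℝ × ℝ × ℝ))
        (g := fun z : ℝ × ℝ × ℝ => Gi i z.1 ((fun _ : ℝ => v τ0) z.2.1) z.2.2)
        (Gi_cont i (fun _ => hvm) (fun _ => hvM) (fun _ => continuous_const) ht.1 0 s) (by fun_prop)
    refine ⟨fun s => (loc1 hVB hVL hv hM h0 hT hb htc s).1, fun s => ?_, fun s => ?_, fun s => ?_,
      fun s => ?_, fun s => (loc1 hVB hVL hv hM h0 hT hb htc s).2, fun s => ?_⟩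
    · exact ((dGG ht.1 hvm hvM).2.2.2 s).add (D1_hs h1 hgc hgM hgL ht.1.le s)
    · have e1 := (Gi_ht ht.1 hvm hvM s).add (DD_ht h1 hgc hgM hgL ht.1 s)
      have e2 : gv V v τ0 T0 t s = -(V s * v (τ0 + t) s) := by
        unfold gv
        rw [min_eq_left ht.2.le, max_eq_right ht.1.le]
      rw [e2] at e1
      have e3 : Gi 2 t (v τ0) s + (D2 (gv V v τ0 T0) t s + -(V s * v (τ0 + t) s)) =
          Gi 2 t (v τ0) s + D2 (gv V v τ0 T0) t s - V s * v (τ0 + t) s := by ring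
      rw [e3] at e1
      refine e1.congr_of_eventuallyEq ?_
      filter_upwards [Ioo_mem_nhds ht.1 ht.2] with r hr
      exact shift hv h0 ⟨hr.1, hr.2.le⟩ s
    · exact (hGc 1 s).add (weak_cont (f_cont hgc hgM 1) (f1_bd hgc hgM) ht.1 s)
    · exact (hGc 2 s).add (weak_cont (f_cont hgc hgM 2) (f2_bd h1 hgc hgM hgL) ht.1 s)
    · refine (abs_add_le _ _).trans (add_le_add (Gi2_bd h1 ht.1 hvm hvM s) ?_)
      exact (weak_int (f_cont hgc hgM 2) (f2_bd h1 hgc hgM hgL) ht.1.le s).2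
  -- choice of the base point
  have hch : ∀ t1 ∈ Ioo a b, ∃ τ0 T0 δ : ℝ, 0 < δ ∧ a < τ0 - δ ∧ 0 < T0 ∧ τ0 + T0 < b ∧
      t1 - τ0 ∈ Ioo 0 T0 := by
    intro t1 ht1
    refine ⟨(a + t1) / 2, (t1 - a) / 2 + (b - t1) / 2, (t1 - a) / 4, ?_, ?_, ?_, ?_, ?_, ?_⟩ <;>
      linarith [ht1.1, ht1.2]
  have hd1 : ∀ τ0 T0 δ : ℝ, 0 < δ → a < τ0 - δ → 0 < T0 → τ0 + T0 < b → ∀ t, t - τ0 ∈ Ioo 0 T0 →
      deriv (v t) = fun s => Gi 1 (t - τ0) (v τ0) s + D1 (gv V v τ0 T0) (t - τ0) s := by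
    intro τ0 T0 δ hδ h0δ hT hb t ht
    funext s
    have := ((hloc τ0 T0 δ hδ h0δ hT hb _ ht).1 s).deriv
    rwa [add_sub_cancel] at this
  have hd2 : ∀ τ0 T0 δ : ℝ, 0 < δ → a < τ0 - δ → 0 < T0 → τ0 + T0 < b → ∀ t, t - τ0 ∈ Ioo 0 T0 →
      deriv (deriv (v t)) = fun s => Gi 2 (t - τ0) (v τ0) s + D2 (gv V v τ0 T0) (t - τ0) s := by
    intro τ0 T0 δ hδ h0δ hT hb t ht
    rw [hd1 τ0 T0 δ hδ h0δ hT hb t ht]
    funext s
    exact ((hloc τ0 T0 δ hδ h0δ hT hb _ ht).2.1 s).deriv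
  constructor
  · refine ⟨?_, ?_, ?_, ?_, ?_⟩
    · intro t ht
      obtain ⟨τ0, T0, δ, hδ, h0δ, hT, hb, htt⟩ := hch t ht
      obtain ⟨a1, a2, a3, a4, a5, -⟩ := hloc τ0 T0 δ hδ h0δ hT hb _ htt
      rw [add_sub_cancel] at a1
      refine c2_of a1 a2 ?_
      rw [continuous_iff_continuousAt]
      intro s
      exact ContinuousAt.comp (f := fun s : ℝ => (t - τ0, s))
        (g := fun z : ℝ × ℝ => Gi 2 z.1 (v τ0) z.2 + D2 (gv V v τ0 T0) z.1 z.2) (a5 s) (by fun_prop)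
    · intro t ht s
      obtain ⟨τ0, T0, δ, hδ, h0δ, hT, hb, htt⟩ := hch t ht
      obtain ⟨a1, a2, a3, a4, a5, -⟩ := hloc τ0 T0 δ hδ h0δ hT hb _ htt
      rw [hd2 τ0 T0 δ hδ h0δ hT hb t htt]
      have h5 := (a3 s).comp_sub_const t τ0
      simp only [add_sub_cancel] at h5
      exact h5
    · refine hv.cont.mono (prod_mono_left Ioo_subset_Ioi_self)
    · intro z hz
      obtain ⟨τ0, T0, δ, hδ, h0δ, hT, hb, htt⟩ := hch z.1 hz.1
      obtain ⟨a1, a2, a3, a4, a5, -⟩ := hloc τ0 T0 δ hδ h0δ hT hb _ htt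
      refine ContinuousAt.continuousWithinAt ?_
      have h5 : ContinuousAt (fun z : ℝ × ℝ => Gi 1 (z.1 - τ0) (v τ0) z.2 +
          D1 (gv V v τ0 T0) (z.1 - τ0) z.2) z :=
        ContinuousAt.comp (f := fun z : ℝ × ℝ => (z.1 - τ0, z.2))
          (g := fun z : ℝ × ℝ => Gi 1 z.1 (v τ0) z.2 + D1 (gv V v τ0 T0) z.1 z.2) (a4 z.2) (by fun_prop)
      refine h5.congr ?_
      have h6 : ∀ᶠ z' : ℝ × ℝ in 𝓝 z, z'.1 - τ0 ∈ Ioo 0 T0 :=
        (continuousAt_fst.sub continuousAt_const).eventually_mem (Ioo_mem_nhds htt.1 htt.2)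
      filter_upwards [h6] with z' hz'
      rw [hd1 τ0 T0 δ hδ h0δ hT hb z'.1 hz']
    · intro z hz
      obtain ⟨τ0, T0, δ, hδ, h0δ, hT, hb, htt⟩ := hch z.1 hz.1
      obtain ⟨a1, a2, a3, a4, a5, -⟩ := hloc τ0 T0 δ hδ h0δ hT hb _ htt
      refine ContinuousAt.continuousWithinAt ?_
      have h5 : ContinuousAt (fun z : ℝ × ℝ => Gi 2 (z.1 - τ0) (v τ0) z.2 +
          D2 (gv V v τ0 T0) (z.1 - τ0) z.2) z :=
        ContinuousAt.comp (f := fun z : ℝ × ℝ => (z.1 - τ0, z.2))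
          (g := fun z : ℝ × ℝ => Gi 2 z.1 (v τ0) z.2 + D2 (gv V v τ0 T0) z.1 z.2) (a5 z.2) (by fun_prop)
      refine h5.congr ?_
      have h6 : ∀ᶠ z' : ℝ × ℝ in 𝓝 z, z'.1 - τ0 ∈ Ioo 0 T0 :=
        (continuousAt_fst.sub continuousAt_const).eventually_mem (Ioo_mem_nhds htt.1 htt.2)
      filter_upwards [h6] with z' hz'
      rw [hd2 τ0 T0 δ hδ h0δ hT hb z'.1 hz']
  · intro δ hδ hδ1 t ht s
    have htb : t < b := ht.2
    have hta : a + δ < t := ht.1
    have k1 : 0 < δ / 4 := by positivity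
    have k2 : a < (t - δ / 2) - δ / 4 := by linarith
    have k3 : 0 < δ / 2 + (b - t) / 2 := by linarith
    have k4 : t - δ / 2 + (δ / 2 + (b - t) / 2) < b := by linarith
    have k5 : t - (t - δ / 2) ∈ Ioo 0 (δ / 2 + (b - t) / 2) := ⟨by linarith, by linarith⟩
    obtain ⟨-, -, -, -, -, a6, a7⟩ := hloc _ _ _ k1 k2 k3 k4 _ k5
    rw [hd2 _ _ _ k1 k2 k3 k4 t k5, hd1 _ _ _ k1 k2 k3 k4 t k5]
    have b6 := a6 s
    have b7 := a7 s
    simp only at b6 b7 ⊢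
    have e1 : t - (t - δ / 2) = δ / 2 := by ring
    rw [e1] at b6 b7 ⊢
    -- elementary inequalities
    set q := √δ with hq
    have hq0 : 0 < q := by positivity
    have hqq : q ^ 2 = δ := Real.sq_sqrt hδ.le
    have hq1 : q ≤ 1 := Real.sqrt_le_one.2 hδ1
    have h2 : √(δ / 2) = q / √2 := by rw [hq, Real.sqrt_div hδ.le]
    have h4 : √(δ / 4) = q / 2 := by
      rw [hq, Real.sqrt_div hδ.le, show (4 : ℝ) = 2 ^ 2 by norm_num, Real.sqrt_sq (by norm_num)]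
    have s2 : √2 ^ 2 = 2 := Real.sq_sqrt (by norm_num)
    have s2p : 0 < √2 := by positivity
    have s2u : √2 ≤ 3 / 2 := by
      rw [Real.sqrt_le_left (by norm_num)]; norm_num
    have s2i : 1 / √2 ≤ 1 := by
      rw [div_le_one s2p]
      rw [Real.one_le_sqrt]; norm_num
    rw [h2] at b6
    rw [h2, h4] at b7
    have hBM : 0 ≤ B * M := by positivity
    have hδ' : M / δ = M / q ^ 2 := by rw [hqq]
    have hiq : 1 ≤ 1 / q := by rw [le_div_iff₀ hq0]; linarith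
    have hiq2 : 1 / q ≤ 1 / q ^ 2 := by
      apply one_div_le_one_div_of_le (by positivity)
      nlinarith
    have hi2 : 1 ≤ 1 / q ^ 2 := hiq.trans hiq2
    have hB0 : 0 ≤ B := by linarith
    constructor
    · refine b6.trans ?_
      have c1 : M / (q / √2) ≤ 3 / 2 * (B * M * (1 / q ^ 2)) := by
        calc M / (q / √2) = √2 * (M * (1 / q)) := by field_simp
          _ ≤ 3 / 2 * (M * (1 / q ^ 2)) := by gcongr
          _ ≤ 3 / 2 * (B * M * (1 / q ^ 2)) := by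
              gcongr
              nlinarith
      have c2 : 2 * (B * M) * (q / √2) ≤ 2 * (B * M * (1 / q ^ 2)) := by
        have : q / √2 ≤ 1 := by
          calc q / √2 = q * (1 / √2) := by ring
            _ ≤ 1 * 1 := by gcongr
            _ = 1 := by ring
        calc 2 * (B * M) * (q / √2) ≤ 2 * (B * M) * (1 / q ^ 2) :=
              mul_le_mul_of_nonneg_left (this.trans hi2) (by positivity)
          _ = _ := by ring
      have c3 : 10 * B * M / δ = 10 * (B * M * (1 / q ^ 2)) := by rw [hqq]; ring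
      rw [c3]
      have c4 : 0 ≤ B * M * (1 / q ^ 2) := by positivity
      linarith
    · refine b7.trans ?_
      set Q := 1 / q ^ 2 with hQ
      have hQ0 : 0 < Q := by positivity
      have c1 : M / (δ / 2) ≤ 2 * (B ^ 2 * M * Q) := by
        have e2 : M / (δ / 2) = 2 * (M * Q) := by rw [hQ, hqq]; field_simp
        rw [e2]
        have : M * Q ≤ B ^ 2 * M * Q := by
          have : 1 ≤ B ^ 2 := by nlinarith
          have h7 : 0 ≤ M * Q := by positivity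
          nlinarith
        linarith
      have hqs : q / √2 ≤ 1 := by
        calc q / √2 = q * (1 / √2) := by ring
          _ ≤ 1 * 1 := by gcongr
          _ = 1 := by ring
      have c2 : 2 * (L * M) * (q / √2) ≤ 2 * (L * M * Q) := by
        calc 2 * (L * M) * (q / √2) ≤ 2 * (L * M) * Q :=
              mul_le_mul_of_nonneg_left (hqs.trans hi2) (by positivity)
          _ = _ := by ring
      have c3 : 2 * (B * (M / (q / 2))) * (q / √2) ≤ 4 * (B ^ 2 * M * Q) := by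
        have e3 : 2 * (B * (M / (q / 2))) * (q / √2) = 4 * (B * M) * (1 / √2) := by field_simp; ring
        rw [e3]
        calc 4 * (B * M) * (1 / √2) ≤ 4 * (B * M) * 1 := by gcongr
          _ ≤ 4 * (B ^ 2 * M) * Q := by
              have h8 : B * M ≤ B ^ 2 * M := by nlinarith
              calc 4 * (B * M) * 1 ≤ 4 * (B ^ 2 * M) * 1 := by gcongr
                _ ≤ 4 * (B ^ 2 * M) * Q := by gcongr
          _ = _ := by ring
      have c4 : 2 * (B * (2 * (B * M) * (q / 2))) * (q / √2) ≤ 2 * (B ^ 2 * M * Q) := by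
        have e4 : 2 * (B * (2 * (B * M) * (q / 2))) * (q / √2) = 2 * (B ^ 2 * M) * (q * (q / √2)) := by ring
        rw [e4]
        calc 2 * (B ^ 2 * M) * (q * (q / √2)) ≤ 2 * (B ^ 2 * M) * (1 * 1) := by gcongr
          _ ≤ 2 * (B ^ 2 * M) * Q := by rw [one_mul]; gcongr
          _ = _ := by ring
      have c5 : 10 * (B ^ 2 + L) * M / δ = 10 * (B ^ 2 * M * Q) + 10 * (L * M * Q) := by
        rw [hQ, hqq]; ring
      rw [c5]
      have c6 : 0 ≤ B ^ 2 * M * Q := by positivity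
      have c7 : 0 ≤ L * M * Q := by positivity
      have c8 : M / (δ / 2) + 2 * (L * M + B * (M / (q / 2) + 2 * (B * M) * (q / 2))) * (q / √2) =
          M / (δ / 2) + 2 * (L * M) * (q / √2) + 2 * (B * (M / (q / 2))) * (q / √2) +
          2 * (B * (2 * (B * M) * (q / 2))) * (q / √2) := by ring
      rw [c8]
      linarith

end Pool.Agent.H33.HK
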